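import Pool.Agent.Helper32.SQ.Sim

/-!
# MP_309e91_co : bounded integer points in the cells of the arrangements

`Sim B x y`: the real vectors `x` and `y` satisfy the same linear inequalities whose integer
coefficients have sum of absolute values at most `B`. Every real vector is similar in this sense to
an integer vector with explicitly bounded entries.
-/

set_option autoImplicit false

namespace Pool.Agent.Helper76.SQG

open Finset Pool.Agent.Helper32.SQ

/-- the bound for the entries -/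
def mb : ℕ → ℤ → ℤ
  | 0, _ => 0
  | n + 1, B => 2 * B ^ 2 * (B * mb n (2 * B ^ 2) + 1)

theorem mb_nonneg (n : ℕ) : ∀ B : ℤ, 0 ≤ B → 0 ≤ mb n B := by
  induction n with
  | zero =>
    intro B _
    exact le_refl _
  | succ n ih =>
    intro B hB
    have h1 := ih (2 * B ^ 2) (by positivity)
    rw [mb]
    positivity

/-- one more coordinate -/
theorem cel_step {κ : Type} [Fintype κ] {B m : ℤ} (hB : 1 ≤ B) {x : κ → ℝ} {z : κ → ℤ}
    (hm : ∀ k, |z k| ≤ m) (hm0 : 0 ≤ m)
    (h : Sim (2 * B ^ 2) x (fun k => (z k : ℝ))) (t : ℝ) :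
    ∃ D A : ℤ, 1 ≤ D ∧ D ≤ 2 * B ^ 2 ∧ |A| ≤ D * (B * m + 1) ∧
      Sim B (ext x t) (ext (fun k => (z k : ℝ)) ((A : ℝ) / D)) := by
  classical
  set y : κ → ℝ := fun k => (z k : ℝ) with hy
  set Φ : Finset (Option κ → ℤ) :=
    (finite_ball (Option κ) B).toFinset.filter fun ρ => 0 < ρ none with hΦ
  have hmem : ∀ ρ, ρ ∈ Φ ↔ fn ρ ≤ B ∧ 0 < ρ none := by
    intro ρ
    rw [hΦ, mem_filter, Set.Finite.mem_toFinset]
    exact Iff.rfl
  set θ : (κ → ℝ) → (Option κ → ℤ) → ℝ := fun z ρ => -fv (fun k => ρ (some k)) z / ρ none with hθ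
  -- the order of the thresholds
  have hord : ∀ ρ ∈ Φ, ∀ σ ∈ Φ, (θ x ρ < θ x σ ↔ θ y ρ < θ y σ) := by
    intro ρ hρ σ hσ
    obtain ⟨h1, h2⟩ := (hmem ρ).1 hρ
    obtain ⟨h3, h4⟩ := (hmem σ).1 hσ
    set τ : κ → ℤ := σ none • (fun k => ρ (some k)) + -(ρ none • fun k => σ (some k)) with hτ
    have hz : ∀ z : κ → ℝ, (θ z ρ < θ z σ ↔ 0 < fv τ z) := by
      intro z
      have h5 : (0 : ℝ) < ρ none := by exact_mod_cast h2
      have h6 : (0 : ℝ) < σ none := by exact_mod_cast h4
      rw [hθ]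
      dsimp only
      rw [div_lt_div_iff₀ h5 h6, hτ, fv_add, fv_neg, fv_smul, fv_smul]
      constructor <;> intro h7 <;> linarith
    have hn : fn τ ≤ 2 * B ^ 2 := by
      have e1 := fn_option ρ
      have e2 := fn_option σ
      have e3 := fn_nonneg (fun k => ρ (some k))
      have e4 := fn_nonneg (fun k => σ (some k))
      have e5 := abs_nonneg (ρ none)
      have e6 := abs_nonneg (σ none)
      have h5 : fn τ ≤ |σ none| * fn (fun k => ρ (some k)) + |ρ none| * fn fun k => σ (some k) := by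
        rw [hτ]
        refine (fn_add _ _).trans ?_
        rw [fn_neg, fn_smul, fn_smul]
      have h6 : |σ none| * fn (fun k => ρ (some k)) ≤ B * B :=
        mul_le_mul (by linarith) (by linarith) e3 (by linarith)
      have h7 : |ρ none| * fn (fun k => σ (some k)) ≤ B * B :=
        mul_le_mul (by linarith) (by linarith) e4 (by linarith)
      nlinarith
    rw [hz, hz]
    exact h τ hn
  have hordE : ∀ ρ ∈ Φ, ∀ σ ∈ Φ, θ x ρ = θ x σ → θ y ρ = θ y σ := by
    intro ρ hρ σ hσ he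
    rcases lt_trichotomy (θ y ρ) (θ y σ) with g | g | g
    · exact absurd ((hord ρ hρ σ hσ).2 g) (by rw [he]; exact lt_irrefl _)
    · exact g
    · exact absurd ((hord σ hσ ρ hρ).2 g) (by rw [he]; exact lt_irrefl _)
  -- the thresholds of the integer vector are fractions
  have hfr : ∀ ρ ∈ Φ, ∃ a b : ℤ, 1 ≤ b ∧ b ≤ B ∧ |a| ≤ B * m ∧ θ y ρ = (a : ℝ) / b := by
    intro ρ hρ
    obtain ⟨h1, h2⟩ := (hmem ρ).1 hρ
    have e1 := fn_option ρ
    have e3 := fn_nonneg (fun k => ρ (some k))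
    have e5 := le_abs_self (ρ none)
    refine ⟨-∑ k, ρ (some k) * z k, ρ none, h2, by linarith, ?_, ?_⟩
    · rw [abs_neg]
      calc |∑ k, ρ (some k) * z k| ≤ ∑ k, |ρ (some k) * z k| := abs_sum_le_sum_abs _ _
        _ ≤ ∑ k, |ρ (some k)| * m := sum_le_sum fun k _ => by
            rw [abs_mul]
            exact mul_le_mul_of_nonneg_left (hm k) (abs_nonneg _)
        _ = fn (fun k => ρ (some k)) * m := by
            unfold fn
            rw [sum_mul]
        _ ≤ B * m := mul_le_mul_of_nonneg_right (by have := abs_nonneg (ρ none); linarith) hm0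
    · rw [hθ]
      dsimp only
      congr 1
      unfold fv
      push_cast
      rfl
  -- the new coordinate
  have key : ∃ D A : ℤ, 1 ≤ D ∧ D ≤ 2 * B ^ 2 ∧ |A| ≤ D * (B * m + 1) ∧
      (∀ ρ ∈ Φ, θ x ρ < t → θ y ρ < (A : ℝ) / D) ∧ (∀ ρ ∈ Φ, t < θ x ρ → (A : ℝ) / D < θ y ρ) ∧
      (∀ ρ ∈ Φ, θ x ρ = t → θ y ρ = (A : ℝ) / D) := by
    have hBm : 0 ≤ B * m := by positivity
    have hB2 : B ≤ 2 * B ^ 2 := by nlinarith
    by_cases hE : ∃ ε ∈ Φ, θ x ε = t
    · obtain ⟨ε, hε, rfl⟩ := hE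
      obtain ⟨a, b, hb1, hb2, ha, hab⟩ := hfr ε hε
      refine ⟨b, a, hb1, hb2.trans hB2, ?_, ?_, ?_, ?_⟩
      · nlinarith
      · intro ρ hρ hlt
        rw [← hab]
        exact (hord ρ hρ ε hε).1 hlt
      · intro ρ hρ hlt
        rw [← hab]
        exact (hord ε hε ρ hρ).1 hlt
      · intro ρ hρ he
        rw [← hab]
        exact hordE ρ hρ ε hε he
    · push Not at hE
      set L := Φ.filter fun ρ => θ x ρ < t with hL
      set U := Φ.filter fun ρ => t < θ x ρ with hU
      have hE3 : ∀ (s : ℝ), ∀ ρ ∈ Φ, θ x ρ = t → θ y ρ = s := fun s ρ hρ he =>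
        absurd he (hE ρ hρ)
      rcases L.eq_empty_or_nonempty with hLe | hLn
      · have hL0 : ∀ (s : ℝ), ∀ ρ ∈ Φ, θ x ρ < t → θ y ρ < s := by
          intro s ρ hρ hlt
          have : ρ ∈ L := mem_filter.2 ⟨hρ, hlt⟩
          rw [hLe] at this
          exact absurd this (notMem_empty _)
        rcases U.eq_empty_or_nonempty with hUe | hUn
        · refine ⟨1, 0, le_refl _, by nlinarith, by rw [abs_zero]; nlinarith, hL0 _, ?_, hE3 _⟩
          intro ρ hρ hlt
          have : ρ ∈ U := mem_filter.2 ⟨hρ, hlt⟩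
          rw [hUe] at this
          exact absurd this (notMem_empty _)
        · obtain ⟨ρ₂, hρ₂, hmin⟩ := U.exists_min_image (θ y) hUn
          obtain ⟨a, b, hb1, hb2, ha, hab⟩ := hfr ρ₂ (mem_filter.1 hρ₂).1
          have hb0 : (0 : ℝ) < b := by exact_mod_cast (by omega : (0 : ℤ) < b)
          refine ⟨b, a - b, hb1, hb2.trans hB2, ?_, hL0 _, ?_, hE3 _⟩
          · have h1 := abs_sub a b
            rw [abs_of_pos (by omega : 0 < b)] at h1
            have h2 : |a - b| ≤ |a| + b := h1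
            nlinarith
          · intro ρ hρ hlt
            have h1 := hmin ρ (mem_filter.2 ⟨hρ, hlt⟩)
            refine lt_of_lt_of_le ?_ h1
            rw [hab]
            push_cast
            rw [sub_div, div_self hb0.ne']
            linarith
      · obtain ⟨ρ₁, hρ₁, hmax⟩ := L.exists_max_image (θ y) hLn
        obtain ⟨a, b, hb1, hb2, ha, hab⟩ := hfr ρ₁ (mem_filter.1 hρ₁).1
        have hb0 : (0 : ℝ) < b := by exact_mod_cast (by omega : (0 : ℤ) < b)
        rcases U.eq_empty_or_nonempty with hUe | hUn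
        · refine ⟨b, a + b, hb1, hb2.trans hB2, ?_, ?_, ?_, hE3 _⟩
          · have h1 := abs_add_le a b
            rw [abs_of_pos (by omega : 0 < b)] at h1
            nlinarith
          · intro ρ hρ hlt
            have h1 := hmax ρ (mem_filter.2 ⟨hρ, hlt⟩)
            refine lt_of_le_of_lt h1 ?_
            rw [hab]
            push_cast
            rw [add_div, div_self hb0.ne']
            linarith
          · intro ρ hρ hlt
            have : ρ ∈ U := mem_filter.2 ⟨hρ, hlt⟩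
            rw [hUe] at this
            exact absurd this (notMem_empty _)
        · obtain ⟨ρ₂, hρ₂, hmin⟩ := U.exists_min_image (θ y) hUn
          obtain ⟨a', b', hb1', hb2', ha', hab'⟩ := hfr ρ₂ (mem_filter.1 hρ₂).1
          have hb0' : (0 : ℝ) < b' := by exact_mod_cast (by omega : (0 : ℤ) < b')
          have hlt12 : θ y ρ₁ < θ y ρ₂ := by
            rw [mem_filter] at hρ₁ hρ₂
            exact (hord ρ₁ hρ₁.1 ρ₂ hρ₂.1).1 (hρ₁.2.trans hρ₂.2)
          have hval : (((a * b' + a' * b : ℤ) : ℝ) / ((2 * b * b' : ℤ) : ℝ)) =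
              (θ y ρ₁ + θ y ρ₂) / 2 := by
            rw [hab, hab']
            push_cast
            field_simp
          refine ⟨2 * b * b', a * b' + a' * b, by nlinarith, by nlinarith, ?_, ?_, ?_, hE3 _⟩
          · have h1 := abs_add_le (a * b') (a' * b)
            rw [abs_mul, abs_mul, abs_of_pos (by omega : 0 < b), abs_of_pos (by omega : 0 < b')]
              at h1
            have h2 : |a| * b' ≤ B * m * b' := mul_le_mul_of_nonneg_right ha (by omega)
            have h3 : |a'| * b ≤ B * m * b := mul_le_mul_of_nonneg_right ha' (by omega)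
            have h4 : b + b' ≤ 2 * b * b' := by nlinarith
            have h5 : B * m * (b + b') ≤ B * m * (2 * b * b') := mul_le_mul_of_nonneg_left h4 hBm
            nlinarith
          · intro ρ hρ hlt
            have h1 := hmax ρ (mem_filter.2 ⟨hρ, hlt⟩)
            rw [hval]
            linarith
          · intro ρ hρ hlt
            have h1 := hmin ρ (mem_filter.2 ⟨hρ, hlt⟩)
            rw [hval]
            linarith
  obtain ⟨D, A, hD1, hD2, hA, k1, k2, k3⟩ := key
  refine ⟨D, A, hD1, hD2, hA, ?_⟩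
  set t' : ℝ := (A : ℝ) / D with ht'
  have hiff : ∀ ρ ∈ Φ, (θ x ρ < t ↔ θ y ρ < t') ∧ (t < θ x ρ ↔ t' < θ y ρ) := by
    intro ρ hρ
    rcases lt_trichotomy (θ x ρ) t with h3 | h3 | h3
    · have h4 := k1 ρ hρ h3
      exact ⟨⟨fun _ => h4, fun _ => h3⟩, ⟨fun h5 => absurd h5 (not_lt.2 h3.le),
        fun h5 => absurd h5 (not_lt.2 h4.le)⟩⟩
    · have h4 := k3 ρ hρ h3
      rw [h3, h4]
      exact ⟨⟨fun h5 => absurd h5 (lt_irrefl _), fun h5 => absurd h5 (lt_irrefl _)⟩,
        ⟨fun h5 => absurd h5 (lt_irrefl _), fun h5 => absurd h5 (lt_irrefl _)⟩⟩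
    · have h4 := k2 ρ hρ h3
      exact ⟨⟨fun h5 => absurd h5 (not_lt.2 h3.le), fun h5 => absurd h5 (not_lt.2 h4.le)⟩,
        ⟨fun _ => h4, fun _ => h3⟩⟩
  intro ρ hρ
  rw [fv_ext, fv_ext]
  rcases lt_trichotomy (ρ none) 0 with h1 | h1 | h1
  · -- negative coefficient
    have h2 : -ρ ∈ Φ := (hmem _).2 ⟨by rw [fn_neg]; exact hρ, by rw [Pi.neg_apply]; omega⟩
    have h3 := (hiff _ h2).2
    have h4 : (ρ none : ℝ) < 0 := by exact_mod_cast h1
    have h5 : ∀ (z : κ → ℝ) (s : ℝ), (s < θ z (-ρ) ↔ 0 < ρ none * s +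
        fv (fun k => ρ (some k)) z) := by
      intro z s
      have h6 : fv (fun k => (-ρ) (some k)) z = -fv (fun k => ρ (some k)) z :=
        fv_neg (fun k => ρ (some k)) z
      rw [hθ]
      dsimp only
      rw [h6, Pi.neg_apply, lt_div_iff₀ (by push_cast; linarith)]
      push_cast
      constructor <;> intro h7 <;> linarith
    rw [← h5, ← h5]
    exact h3
  · rw [h1, Int.cast_zero, zero_mul, zero_mul, zero_add, zero_add]
    refine h _ ?_
    have h2 := fn_option ρ
    rw [h1, abs_zero, zero_add] at h2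
    rw [← h2]
    have h3 := fn_nonneg ρ
    nlinarith
  · have h2 : ρ ∈ Φ := (hmem _).2 ⟨hρ, h1⟩
    have h3 := (hiff _ h2).1
    have h4 : (0 : ℝ) < ρ none := by exact_mod_cast h1
    have h5 : ∀ (z : κ → ℝ) (s : ℝ), (θ z ρ < s ↔ 0 < ρ none * s +
        fv (fun k => ρ (some k)) z) := by
      intro z s
      rw [hθ]
      dsimp only
      rw [div_lt_iff₀ h4]
      constructor <;> intro h7 <;> linarith
    rw [← h5, ← h5]
    exact h3

/-- scaling -/
theorem sim_scale {κ : Type} [Fintype κ] {B : ℤ} {x y y' : κ → ℝ} (h : Sim B x y) {D : ℝ}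
    (hD : 0 < D) (hy : ∀ k, y' k = D * y k) : Sim B x y' := by
  intro ρ hρ
  rw [h ρ hρ]
  have h1 : fv ρ y' = D * fv ρ y := by
    unfold fv
    rw [mul_sum]
    exact sum_congr rfl fun k _ => by rw [hy k]; ring
  rw [h1]
  exact (mul_pos_iff_of_pos_left hD).symm

/-- for the types `Fin n` by induction -/
theorem cel_fin (n : ℕ) : ∀ (B : ℤ), 1 ≤ B → ∀ x : Fin n → ℝ,
    ∃ z : Fin n → ℤ, (∀ k, |z k| ≤ mb n B) ∧ Sim B x (fun k => (z k : ℝ)) := by
  induction n with
  | zero =>
    intro B _ x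
    refine ⟨fun k => k.elim0, fun k => k.elim0, ?_⟩
    intro ρ _
    unfold fv
    simp
  | succ n ih =>
    intro B hB x
    have hB' : (1 : ℤ) ≤ 2 * B ^ 2 := by nlinarith
    obtain ⟨z, hz, hs⟩ := ih (2 * B ^ 2) hB' (fun i => x i.succ)
    have hm0 := mb_nonneg n (2 * B ^ 2) (by omega)
    obtain ⟨D, A, hD1, hD2, hA, hS⟩ := cel_step hB hz hm0 hs (x 0)
    have hD0 : (0 : ℝ) < D := by exact_mod_cast (by omega : (0 : ℤ) < D)
    -- reindexing
    let e : Fin (n + 1) ≃ Option (Fin n) := finSuccEquiv n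
    have h1 := Sim.reindex hS e
    have e1 : Pool.Agent.Helper32.SQ.ext (fun i => x i.succ) (x 0) ∘ e = x := by
      funext k
      induction k using Fin.cases with
      | zero => simp [e, Pool.Agent.Helper32.SQ.ext]
      | succ j => simp [e, Pool.Agent.Helper32.SQ.ext]
    rw [e1] at h1
    refine ⟨(Fin.cons A (fun j => D * z j) : Fin (n + 1) → ℤ), ?_, ?_⟩
    · intro k
      rw [mb]
      have hb1 : 0 ≤ B * mb n (2 * B ^ 2) := by positivity
      induction k using Fin.cases with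
      | zero =>
        rw [Fin.cons_zero]
        refine hA.trans ?_
        exact mul_le_mul_of_nonneg_right hD2 (by omega)
      | succ j =>
        rw [Fin.cons_succ, abs_mul, abs_of_pos (by omega : 0 < D)]
        have h2 := hz j
        have h3 : D * |z j| ≤ 2 * B ^ 2 * mb n (2 * B ^ 2) :=
          mul_le_mul hD2 h2 (abs_nonneg _) (by positivity)
        have h4 : mb n (2 * B ^ 2) ≤ B * mb n (2 * B ^ 2) + 1 := by nlinarith
        exact h3.trans (mul_le_mul_of_nonneg_left h4 (by positivity))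
    · refine sim_scale h1 hD0 ?_
      intro k
      induction k using Fin.cases with
      | zero =>
        have h5 : (Pool.Agent.Helper32.SQ.ext (fun k => (z k : ℝ)) ((A : ℝ) / D) ∘ e) 0 =
            (A : ℝ) / D := by
          simp [e, Pool.Agent.Helper32.SQ.ext]
        rw [h5, Fin.cons_zero]
        field_simp
      | succ j =>
        have h5 : (Pool.Agent.Helper32.SQ.ext (fun k => (z k : ℝ)) ((A : ℝ) / D) ∘ e) j.succ =
            (z j : ℝ) := by
          simp [e, Pool.Agent.Helper32.SQ.ext]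
        rw [h5, Fin.cons_succ]
        push_cast
        ring

/-- BOUNDED INTEGER POINTS IN THE CELLS -/
theorem cel {κ : Type} [Fintype κ] {B : ℤ} (hB : 1 ≤ B) (x : κ → ℝ) :
    ∃ z : κ → ℤ, (∀ k, |z k| ≤ mb (Fintype.card κ) B) ∧ Sim B x (fun k => (z k : ℝ)) := by
  classical
  let e : κ ≃ Fin (Fintype.card κ) := Fintype.equivFin κ
  obtain ⟨z, hz, hs⟩ := cel_fin (Fintype.card κ) B hB (x ∘ e.symm)
  refine ⟨z ∘ e, fun k => hz _, ?_⟩
  have h1 := Sim.reindex hs e
  have h2 : (x ∘ e.symm) ∘ e = x := by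
    funext k
    simp
  rw [h2] at h1
  exact h1

theorem mb_le' (n : ℕ) : ∀ B : ℤ, 1 ≤ B → (2 * B) ^ 3 * mb n B ≤ (2 * B) ^ (3 * 2 ^ n) := by
  induction n with
  | zero =>
    intro B hB
    rw [mb]
    have : (0 : ℤ) ≤ (2 * B) ^ (3 * 2 ^ 0) := by positivity
    linarith
  | succ n ih =>
    intro B hB
    have hB' : (1 : ℤ) ≤ 2 * B ^ 2 := by nlinarith
    have h1 := ih (2 * B ^ 2) hB'
    have h2 : (2 * (2 * B ^ 2)) ^ (3 * 2 ^ n) = (2 * B) ^ (3 * 2 ^ (n + 1)) := by
      have e1 : 2 * (2 * B ^ 2) = (2 * B) ^ 2 := by ring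
      rw [e1, ← pow_mul]
      congr 1
      ring
    rw [h2] at h1
    have h3 : (2 * B) ^ 6 ≤ (2 * B) ^ (3 * 2 ^ (n + 1)) := by
      refine pow_le_pow_right₀ (by linarith) ?_
      have : 1 ≤ 2 ^ n := Nat.one_le_two_pow
      rw [pow_succ]
      omega
    have h4 : B ^ 5 ≤ B ^ 6 := pow_le_pow_right₀ hB (by norm_num)
    rw [mb]
    set E := (2 * B) ^ (3 * 2 ^ (n + 1)) with hE
    set m := mb n (2 * B ^ 2) with hm
    have e1 : (2 * (2 * B ^ 2)) ^ 3 * m = 4 * ((2 * B) ^ 3 * (2 * B ^ 2 * (B * m))) := by ring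
    have e2 : (2 * B) ^ 6 = 64 * B ^ 6 := by ring
    have e3 : (2 * B) ^ 3 * (2 * B ^ 2 * (B * m + 1)) =
        (2 * B) ^ 3 * (2 * B ^ 2 * (B * m)) + 16 * B ^ 5 := by ring
    rw [e1] at h1
    rw [e2] at h3
    rw [e3]
    have h5 : (0 : ℤ) ≤ E := by positivity
    linarith

/-- the bound in closed form -/
theorem mb_le (n : ℕ) {B : ℤ} (hB : 1 ≤ B) : mb n B ≤ (2 * B) ^ (3 * 2 ^ n) := by
  have h1 := mb_le' n B hB
  have h2 := mb_nonneg n B (by omega)
  have h3 : (1 : ℤ) ≤ (2 * B) ^ 3 := one_le_pow₀ (by linarith)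
  nlinarith

end Pool.Agent.Helper76.SQG
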