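import Pool.Agent.Helper76.SQG.Cel
import Pool.Agent.Helper32.SQ.Cone

/-!
# MP_309e91_co : a cell which is a cone has bounded integer generators
-/

set_option autoImplicit false

namespace Pool.Agent.Helper76.SQG

open Finset Module Pool.Agent.Helper32.SQ

variable {r : ℕ}

theorem fv_int (ρ a : Fin r → ℤ) : fv ρ (fun k => (a k : ℝ)) = ((∑ k, ρ k * a k : ℤ) : ℝ) := by
  unfold fv
  push_cast
  rfl

/-- the unit forms -/
theorem fv_single (k : Fin r) (x : Fin r → ℝ) : fv (Pi.single k 1) x = x k := by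
  unfold fv
  rw [sum_eq_single k]
  · simp
  · intro b _ hb
    simp [hb]
  · intro h
    exact absurd (mem_univ k) h

theorem fn_single (k : Fin r) : fn (Pi.single k (1 : ℤ)) = 1 := by
  unfold fn
  rw [sum_eq_single k]
  · simp
  · intro b _ hb
    simp [hb]
  · intro h
    exact absurd (mem_univ k) h

theorem sim_pos {B : ℤ} (hB : 1 ≤ B) {x y : Fin r → ℝ} (h : Sim B x y) (k : Fin r) :
    0 < x k ↔ 0 < y k := by
  have := h (Pi.single k 1) (by rw [fn_single]; exact hB)
  rwa [fv_single, fv_single] at this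

theorem sim_neg {B : ℤ} (hB : 1 ≤ B) {x y : Fin r → ℝ} (h : Sim B x y) (k : Fin r) :
    x k < 0 ↔ y k < 0 := by
  have := h (-Pi.single k 1) (by rw [fn_neg, fn_single]; exact hB)
  rw [fv_neg, fv_neg, fv_single, fv_single] at this
  constructor
  · intro h1
    have := this.1 (by linarith)
    linarith
  · intro h1
    have := this.2 (by linarith)
    linarith

theorem sim_zero {B : ℤ} {x y : Fin r → ℝ} (h : Sim B x y) {ρ : Fin r → ℤ} (hρ : fn ρ ≤ B)
    (h0 : fv ρ x = 0) : fv ρ y = 0 := by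
  have h1 := h ρ hρ
  have h2 := h (-ρ) (by rw [fn_neg]; exact hρ)
  rw [fv_neg, fv_neg] at h2
  refine le_antisymm ?_ ?_
  · by_contra hcon
    have := h1.2 (not_le.1 hcon)
    linarith
  · by_contra hcon
    have := h2.2 (by linarith [not_le.1 hcon])
    linarith

theorem cone_comm (a b : Fin r → ℤ) : cone a b = cone b a := by
  ext p
  constructor
  · rintro ⟨x, y, hx, hy, h⟩
    exact ⟨y, x, hy, hx, fun k => by rw [h k]; ring⟩
  · rintro ⟨x, y, hx, hy, h⟩
    exact ⟨y, x, hy, hx, fun k => by rw [h k]; ring⟩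

/-- the values of the forms at the generators -/
theorem gen_pos {B : ℤ} {p : Fin r → ℝ} {a b : Fin r → ℤ}
    (h : ∀ p', p' ∈ cone a b → Sim B p p') {ρ : Fin r → ℤ} (hρ : fn ρ ≤ B) (hp : 0 < fv ρ p) :
    0 ≤ ∑ k, ρ k * a k ∧ 0 ≤ ∑ k, ρ k * b k ∧ 0 < (∑ k, ρ k * a k) + ∑ k, ρ k * b k := by
  set α := ∑ k, ρ k * a k with hα
  set β := ∑ k, ρ k * b k with hβ
  have key : ∀ x y : ℤ, 0 < x → 0 < y → 0 < α * x + β * y := by
    intro x y hx hy
    have h1 : (fun k => (a k : ℝ) * x + b k * y) ∈ cone a b :=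
      ⟨x, y, by exact_mod_cast hx, by exact_mod_cast hy, fun k => rfl⟩
    have h2 := (h _ h1 ρ hρ).1 hp
    rw [fv_cone ρ a b (p := fun k => (a k : ℝ) * x + b k * y) (fun k => rfl)] at h2
    rw [← hα, ← hβ] at h2
    exact_mod_cast h2
  refine ⟨?_, ?_, ?_⟩
  · by_contra hcon
    have h1 := key (|β| + 1) 1 (by positivity) one_pos
    have h2 := le_abs_self β
    have h3 := abs_nonneg β
    nlinarith
  · by_contra hcon
    have h1 := key 1 (|α| + 1) one_pos (by positivity)
    have h2 := le_abs_self α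
    have h3 := abs_nonneg α
    nlinarith
  · have h1 := key 1 1 one_pos one_pos
    linarith

theorem gen_zero {B : ℤ} {p : Fin r → ℝ} {a b : Fin r → ℤ}
    (h : ∀ p', p' ∈ cone a b → Sim B p p') {ρ : Fin r → ℤ} (hρ : fn ρ ≤ B) (hp : fv ρ p = 0) :
    ∑ k, ρ k * a k = 0 ∧ ∑ k, ρ k * b k = 0 := by
  set α := ∑ k, ρ k * a k with hα
  set β := ∑ k, ρ k * b k with hβ
  have key : ∀ x y : ℤ, 0 < x → 0 < y → α * x + β * y = 0 := by
    intro x y hx hy
    have h1 : (fun k => (a k : ℝ) * x + b k * y) ∈ cone a b :=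
      ⟨x, y, by exact_mod_cast hx, by exact_mod_cast hy, fun k => rfl⟩
    have h2 := sim_zero (h _ h1) hρ hp
    rw [fv_cone ρ a b (p := fun k => (a k : ℝ) * x + b k * y) (fun k => rfl)] at h2
    rw [← hα, ← hβ] at h2
    exact_mod_cast h2
  have h1 := key 1 1 one_pos one_pos
  have h2 := key 2 1 two_pos one_pos
  constructor <;> linarith

/-- the generators characterise the inclusion of the cone in the cell -/
theorem cone_sub {B : ℤ} {p : Fin r → ℝ} {a b : Fin r → ℤ}
    (h1 : ∀ ρ : Fin r → ℤ, fn ρ ≤ B → 0 < fv ρ p →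
      0 ≤ ∑ k, ρ k * a k ∧ 0 ≤ ∑ k, ρ k * b k ∧ 0 < (∑ k, ρ k * a k) + ∑ k, ρ k * b k)
    (h2 : ∀ ρ : Fin r → ℤ, fn ρ ≤ B → fv ρ p = 0 → ∑ k, ρ k * a k = 0 ∧ ∑ k, ρ k * b k = 0)
    {p' : Fin r → ℝ} (hp' : p' ∈ cone a b) : Sim B p p' := by
  obtain ⟨x, y, hx, hy, hxy⟩ := hp'
  have key : ∀ ρ : Fin r → ℤ, fn ρ ≤ B → 0 < fv ρ p → 0 < fv ρ p' := by
    intro ρ hρ hp
    obtain ⟨g1, g2, g3⟩ := h1 ρ hρ hp
    rw [fv_cone ρ a b hxy]
    have g1' : (0 : ℝ) ≤ ((∑ k, ρ k * a k : ℤ) : ℝ) := by exact_mod_cast g1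
    have g2' : (0 : ℝ) ≤ ((∑ k, ρ k * b k : ℤ) : ℝ) := by exact_mod_cast g2
    have g3' : (0 : ℝ) < ((∑ k, ρ k * a k : ℤ) : ℝ) + ((∑ k, ρ k * b k : ℤ) : ℝ) := by
      exact_mod_cast g3
    rcases g1'.eq_or_lt with g | g
    · rw [← g, zero_add] at g3'
      have := mul_pos g3' hy
      rw [← g]
      linarith
    · have := mul_pos g hx
      have := mul_nonneg g2' hy.le
      linarith
  intro ρ hρ
  refine ⟨key ρ hρ, fun hp' => ?_⟩
  rcases lt_trichotomy (fv ρ p) 0 with g | g | g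
  · have := key (-ρ) (by rw [fn_neg]; exact hρ) (by rw [fv_neg]; linarith)
    rw [fv_neg] at this
    linarith
  · obtain ⟨g1, g2⟩ := h2 ρ hρ g
    rw [fv_cone ρ a b hxy, g1, g2] at hp'
    simp at hp'
  · exact g

/-- in the independent case a similar vector is a multiple of the generator -/
theorem gen_mul {B : ℤ} (hB : 1 ≤ B) {p : Fin r → ℝ} {a b : Fin r → ℤ}
    (h : ∀ p', Sim B p p' ↔ p' ∈ cone a b)
    (hind : ∀ s t : ℝ, (∀ k, s * a k + t * b k = 0) → s = 0 ∧ t = 0) {a' : Fin r → ℝ}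
    (ha' : Sim B (fun k => (a k : ℝ)) a') : ∃ α : ℝ, 0 < α ∧ ∀ k, a' k = α * a k := by
  have h' : ∀ p', p' ∈ cone a b → Sim B p p' := fun p' hp' => (h p').2 hp'
  obtain ⟨x₀, y₀, hx₀, hy₀, hxy₀⟩ := (h p).1 (Sim.refl B p)
  -- the vectors `p + t a'`
  have h1 : ∀ t : ℝ, 0 < t → (fun k => p k + t * a' k) ∈ cone a b := by
    intro t ht
    refine (h _).1 ?_
    have hfv : ∀ ρ : Fin r → ℤ, fv ρ (fun k => p k + t * a' k) = fv ρ p + t * fv ρ a' := by
      intro ρ
      unfold fv
      rw [mul_sum, ← sum_add_distrib]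
      exact sum_congr rfl fun k _ => by ring
    have key : ∀ ρ : Fin r → ℤ, fn ρ ≤ B → 0 < fv ρ p → 0 ≤ fv ρ a' := by
      intro ρ hρ hp
      obtain ⟨g1, -, -⟩ := gen_pos h' hρ hp
      by_contra hcon
      have g2 := (ha' (-ρ) (by rw [fn_neg]; exact hρ)).2 (by rw [fv_neg]; linarith [not_le.1 hcon])
      rw [fv_neg, fv_int] at g2
      have g1' : (0 : ℝ) ≤ ((∑ k, ρ k * a k : ℤ) : ℝ) := by exact_mod_cast g1
      linarith
    intro ρ hρ
    rw [hfv]
    constructor
    · intro hp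
      have := mul_nonneg ht.le (key ρ hρ hp)
      linarith
    · intro hpos
      rcases lt_trichotomy (fv ρ p) 0 with g | g | g
      · have g1 := key (-ρ) (by rw [fn_neg]; exact hρ) (by rw [fv_neg]; linarith)
        rw [fv_neg] at g1
        have := mul_nonneg ht.le g1
        linarith
      · obtain ⟨g1, -⟩ := gen_zero h' hρ g
        have g2 := sim_zero ha' hρ (by rw [fv_int, g1]; simp)
        rw [g, g2] at hpos
        simp at hpos
      · exact g
  obtain ⟨x₁, y₁, hx₁, hy₁, hxy₁⟩ := h1 1 one_pos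
  set α := x₁ - x₀ with hα
  set β := y₁ - y₀ with hβ
  have hab : ∀ k, a' k = α * a k + β * b k := by
    intro k
    have e1 := hxy₁ k
    have e2 := hxy₀ k
    simp only at e1
    rw [hα, hβ]
    linarith
  have hα0 : 0 ≤ α := by
    by_contra hcon
    push Not at hcon
    obtain ⟨x, y, hx, hy, hxy⟩ := h1 (x₀ / -α) (div_pos hx₀ (by linarith))
    have e : ∀ k, (x - x₀ - (x₀ / -α) * α) * a k + (y - y₀ - (x₀ / -α) * β) * b k = 0 := by
      intro k
      have e1 := hxy k
      have e2 := hxy₀ k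
      simp only at e1
      rw [hab k, e2] at e1
      linear_combination -e1
    have e0 := (hind _ _ e).1
    have e3 : (x₀ / -α) * α = -x₀ := by
      rw [div_neg, neg_mul, div_mul_cancel₀ _ hcon.ne]
    linarith
  have hβ0 : β = 0 := by
    -- a form which vanishes at `a` and not at `b`
    by_contra hβne
    have hno : ∀ ρ : Fin r → ℤ, fn ρ ≤ B → ∑ k, ρ k * a k = 0 → ∑ k, ρ k * b k = 0 := by
      intro ρ hρ h0
      have g2 := sim_zero ha' hρ (by rw [fv_int, h0]; simp)
      have g3 : fv ρ a' = α * ((∑ k, ρ k * a k : ℤ) : ℝ) + β * ((∑ k, ρ k * b k : ℤ) : ℝ) := by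
        unfold fv
        push_cast
        rw [mul_sum, mul_sum, ← sum_add_distrib]
        exact sum_congr rfl fun k _ => by rw [hab k]; ring
      rw [g2, h0] at g3
      have g4 : β * ((∑ k, ρ k * b k : ℤ) : ℝ) = 0 := by simpa using g3.symm
      have g5 := (mul_eq_zero.1 g4).resolve_left hβne
      exact_mod_cast g5
    set W : ℤ := B * ∑ k, |b k| + 1 with hW
    have hsb : (0 : ℤ) ≤ ∑ k, |b k| := sum_nonneg fun k _ => abs_nonneg _
    have hbd : ∀ ρ : Fin r → ℤ, fn ρ ≤ B → ∑ k, ρ k * b k < W := by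
      intro ρ hρ
      have g1 : ∑ k, ρ k * b k ≤ ∑ k, B * |b k| := by
        refine sum_le_sum fun k _ => ?_
        have g2 := le_abs_self (ρ k * b k)
        rw [abs_mul] at g2
        have g3 : |ρ k| ≤ B := (le_fn ρ k).trans hρ
        have g4 : |ρ k| * |b k| ≤ B * |b k| := mul_le_mul_of_nonneg_right g3 (abs_nonneg _)
        linarith
      rw [← mul_sum] at g1
      linarith
    have hmem : (fun k => (a k : ℝ) * W + b k * (-1)) ∈ cone a b := by
      refine (h _).1 ?_
      have hfv : ∀ ρ : Fin r → ℤ, fv ρ (fun k => (a k : ℝ) * W + b k * (-1)) =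
          ((∑ k, ρ k * a k : ℤ) : ℝ) * W - ((∑ k, ρ k * b k : ℤ) : ℝ) := by
        intro ρ
        rw [fv_cone ρ a b (p := fun k => (a k : ℝ) * W + b k * (-1)) (fun k => rfl)]
        ring
      have key : ∀ ρ : Fin r → ℤ, fn ρ ≤ B → 0 < fv ρ p →
          0 < fv ρ (fun k => (a k : ℝ) * W + b k * (-1)) := by
        intro ρ hρ hp
        obtain ⟨g1, g2, g3⟩ := gen_pos h' hρ hp
        have g4 : ∑ k, ρ k * a k ≠ 0 := by
          intro h0
          rw [h0, hno ρ hρ h0] at g3
          simp at g3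
        have g5 : 1 ≤ ∑ k, ρ k * a k := by omega
        have g6 := hbd ρ hρ
        have g7 : (0 : ℤ) < (∑ k, ρ k * a k) * W - ∑ k, ρ k * b k := by
          have : (0 : ℤ) ≤ W := by
            rw [hW]
            positivity
          nlinarith
        rw [hfv]
        exact_mod_cast g7
      intro ρ hρ
      refine ⟨key ρ hρ, fun hpos => ?_⟩
      rcases lt_trichotomy (fv ρ p) 0 with g | g | g
      · have g1 := key (-ρ) (by rw [fn_neg]; exact hρ) (by rw [fv_neg]; linarith)
        rw [fv_neg] at g1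
        linarith
      · obtain ⟨g1, g2⟩ := gen_zero h' hρ g
        rw [hfv, g1, g2] at hpos
        simp at hpos
      · exact g
    obtain ⟨x, y, hx, hy, hxy⟩ := hmem
    have e := (hind (x - W) (y + 1) (fun k => by
      have e1 := hxy k
      simp only at e1
      linear_combination -e1)).2
    linarith
  have hα1 : α ≠ 0 := by
    intro hα1
    have h0 : ∀ k, a' k = 0 := fun k => by rw [hab k, hα1, hβ0]; ring
    have h2 : ∀ k, (a k : ℝ) = 0 := by
      intro k
      have g1 := sim_pos hB ha' k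
      have g2 := sim_neg hB ha' k
      simp only [h0 k, lt_irrefl, iff_false, not_lt] at g1 g2
      exact le_antisymm g1 g2
    have h3 := (hind 1 0 (fun k => by rw [h2 k]; ring)).1
    exact one_ne_zero h3
  exact ⟨α, lt_of_le_of_ne hα0 (Ne.symm hα1), fun k => by rw [hab k, hβ0]; ring⟩

/-- BOUNDED GENERATORS -/
theorem gen_bdd {B : ℤ} (hB : 1 ≤ B) {p : Fin r → ℝ} {a b : Fin r → ℤ}
    (h : ∀ p', Sim B p p' ↔ p' ∈ cone a b) : ∃ a' b' : Fin r → ℤ, (∀ k, |a' k| ≤ mb r B) ∧
      (∀ k, |b' k| ≤ mb r B) ∧ ∀ p', Sim B p p' ↔ p' ∈ cone a' b' := by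
  by_cases hind : ∀ s t : ℝ, (∀ k, s * a k + t * b k = 0) → s = 0 ∧ t = 0
  · obtain ⟨a', ha1, ha2⟩ := cel hB (fun k => (a k : ℝ))
    obtain ⟨b', hb1, hb2⟩ := cel hB (fun k => (b k : ℝ))
    rw [Fintype.card_fin] at ha1 hb1
    obtain ⟨α, hα, hαa⟩ := gen_mul hB h hind ha2
    obtain ⟨β, hβ, hβb⟩ := gen_mul hB (p := p) (a := b) (b := a)
      (fun p' => by rw [h p', cone_comm]) (fun s t hst => by
        have := hind t s (fun k => by rw [← hst k]; ring)
        exact ⟨this.2, this.1⟩) hb2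
    refine ⟨a', b', ha1, hb1, fun p' => ?_⟩
    rw [h p']
    constructor
    · rintro ⟨x, y, hx, hy, hxy⟩
      refine ⟨x / α, y / β, div_pos hx hα, div_pos hy hβ, fun k => ?_⟩
      rw [hxy k, hαa k, hβb k]
      field_simp
    · rintro ⟨x, y, hx, hy, hxy⟩
      refine ⟨x * α, y * β, mul_pos hx hα, mul_pos hy hβ, fun k => ?_⟩
      rw [hxy k, hαa k, hβb k]
      ring
  · -- a line
    push Not at hind
    obtain ⟨s, t, hst, hst0⟩ := hind
    obtain ⟨a', ha1, ha2⟩ := cel hB p
    rw [Fintype.card_fin] at ha1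
    have hm0 : 0 ≤ mb r B := mb_nonneg r B (by omega)
    refine ⟨a', 0, ha1, fun k => by simpa using hm0, fun p' => ?_⟩
    have hcell : ∀ p₁ p₂ : Fin r → ℝ, p₁ ∈ cone a b → p₂ ∈ cone a b → ∃ c : ℝ, 0 < c ∧
        ∀ k, p₂ k = c * p₁ k := by
      intro p₁ p₂ h1 h2
      have hs12 : Sim B p₁ p₂ := fun ρ hρ =>
        (((h p₁).2 h1) ρ hρ).symm.trans (((h p₂).2 h2) ρ hρ)
      obtain ⟨x₁, y₁, hx₁, hy₁, hxy₁⟩ := h1
      obtain ⟨x₂, y₂, hx₂, hy₂, hxy₂⟩ := h2
      by_cases h0 : ∀ k, p₁ k = 0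
      · refine ⟨1, one_pos, fun k => ?_⟩
        have g1 := sim_pos hB hs12 k
        have g2 := sim_neg hB hs12 k
        simp only [h0 k, lt_irrefl, false_iff, not_lt] at g1 g2
        rw [h0 k, mul_zero]
        exact le_antisymm g1 g2
      · push Not at h0
        obtain ⟨k₀, hk₀⟩ := h0
        -- the two vectors are proportional
        have hprop : ∀ k, p₂ k * p₁ k₀ = p₂ k₀ * p₁ k := by
          intro k
          rw [hxy₁, hxy₁, hxy₂, hxy₂]
          have e1 := hst k
          have e2 := hst k₀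
          by_cases hs : s = 0
          · have ht : t ≠ 0 := fun ht => hst0 hs ht
            rw [hs] at e1 e2
            have e3 : (b k : ℝ) = 0 := by
              have : t * (b k : ℝ) = 0 := by linarith
              exact (mul_eq_zero.1 this).resolve_left ht
            have e4 : (b k₀ : ℝ) = 0 := by
              have : t * (b k₀ : ℝ) = 0 := by linarith
              exact (mul_eq_zero.1 this).resolve_left ht
            rw [e3, e4]
            ring
          · have e3 : (a k : ℝ) = -(t / s) * b k := by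
              field_simp
              linarith
            have e4 : (a k₀ : ℝ) = -(t / s) * b k₀ := by
              field_simp
              linarith
            rw [e3, e4]
            ring
        refine ⟨p₂ k₀ / p₁ k₀, ?_, fun k => ?_⟩
        · have g1 := sim_pos hB hs12 k₀
          have g2 := sim_neg hB hs12 k₀
          rcases lt_or_gt_of_ne hk₀ with g | g
          · exact div_pos_of_neg_of_neg (g2.1 g) g
          · exact div_pos (g1.1 g) g
        · have := hprop k
          field_simp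
          linarith
    have ha' : (fun k => (a' k : ℝ)) ∈ cone a b := (h _).1 ha2
    rw [h p']
    constructor
    · intro hp'
      obtain ⟨c, hc, hck⟩ := hcell _ _ ha' hp'
      exact ⟨c, 1, hc, one_pos, fun k => by rw [hck k]; simp [mul_comm]⟩
    · rintro ⟨x, y, hx, hy, hxy⟩
      obtain ⟨x₁, y₁, hx₁, hy₁, hxy₁⟩ := ha'
      refine ⟨x * x₁, x * y₁, mul_pos hx hx₁, mul_pos hx hy₁, fun k => ?_⟩
      have e := hxy₁ k
      simp only at e
      rw [hxy k, e]
      simp
      ring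

end Pool.Agent.Helper76.SQG
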