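import Pool.Agent.Helper32.SQ.Iff

/-!
# MP_309e91_co : tilings of the toroidal grid
-/

set_option autoImplicit false

namespace Pool.Agent.Helper76.SQG

open Finset Pool.Agent.Helper32.SQ

/-- A symmetry of the square grid over the ring `R` (`ℤ` or `ℤ/N`): exchange the coordinates or not
(`sw`), reflect the first, second coordinate or not (`e`, `e'`), translate by `(c, d)`. -/
structure Sy (R : Type) where
  sw : Bool
  e : Bool
  e' : Bool
  c : R
  d : R

/-- One coordinate of the image: the interval of length `s` which begins at the coordinate `x` (at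
`y` if the coordinates are exchanged) is reflected or not and translated; the result begins here. -/
def co {R : Type} [Ring R] (sw e : Bool) (c : R) (s : ℕ) (x y : R) : R :=
  (if e then -(if sw then y else x) - (s : R) else (if sw then y else x)) + c

/-- The lower left corner of the image of the square with lower left corner `z` and side `s`. -/
def Sy.act {R : Type} [Ring R] (g : Sy R) (s : ℕ) (z : R × R) : R × R :=
  (co g.sw g.e g.c s z.1 z.2, co g.sw g.e' g.d s z.2 z.1)

/-- `(z, i) ∈ T` stands for the square with lower left corner `z` and side `q i` in the toroidal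
`N × N` grid; `s = ((z, i), (a, b))` with `a, b < q i` is the cell `z + (a, b)` of this square. -/
def InTile {N r : ℕ} (q : Fin r → ℕ) (T : Finset ((ZMod N × ZMod N) × Fin r))
    (s : ((ZMod N × ZMod N) × Fin r) × Fin N × Fin N) : Prop :=
  s.1 ∈ T ∧ s.2.1.val < q s.1.2 ∧ s.2.2.val < q s.1.2

/-- The cell. -/
def cell {N r : ℕ} (s : ((ZMod N × ZMod N) × Fin r) × Fin N × Fin N) : ZMod N × ZMod N :=
  (s.1.1.1 + (s.2.1.val : ZMod N), s.1.1.2 + (s.2.2.val : ZMod N))

/-- The squares tile the toroidal grid: every cell is in one square, and in one only. -/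
def Tiles {N r : ℕ} (q : Fin r → ℕ) (T : Finset ((ZMod N × ZMod N) × Fin r)) : Prop :=
  (∀ w : ZMod N × ZMod N, ∃ s, InTile q T s ∧ cell s = w) ∧
    ∀ s s' : ((ZMod N × ZMod N) × Fin r) × Fin N × Fin N,
      InTile q T s → InTile q T s' → cell s = cell s' → s = s'

/-- `g` is a symmetry of the tiling. -/
def IsSy {N r : ℕ} (q : Fin r → ℕ) (T : Finset ((ZMod N × ZMod N) × Fin r)) (g : Sy (ZMod N)) :
    Prop :=
  ∀ (w : ZMod N × ZMod N) (j : Fin r), (w, j) ∈ T ↔ (g.act (q j) w, j) ∈ T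

/-- `T` is a unilateral equitransitive tiling of the toroidal `N × N` grid by squares whose sizes
are the numbers `q i`. -/
structure Grid (N r : ℕ) (q : Fin r → ℕ) (T : Finset ((ZMod N × ZMod N) × Fin r)) : Prop where
  size : ∀ i, 1 ≤ q i ∧ q i ≤ N
  used : ∀ i, ∃ z, (z, i) ∈ T
  tiles : Tiles q T
  equi : ∀ (i : Fin r) (z z' : ZMod N × ZMod N), (z, i) ∈ T → (z', i) ∈ T →
    ∃ g, g.act (q i) z = z' ∧ IsSy q T g
  uni : ∀ (i : Fin r) (z : ZMod N × ZMod N), (z, i) ∈ T →
    ((z.1 + (q i : ZMod N), z.2), i) ∉ T ∧ ((z.1, z.2 + (q i : ZMod N)), i) ∉ T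

/-! ### the conditions are decidable: all the quantifiers range over finite types -/

instance {R : Type} [DecidableEq R] : DecidableEq (Sy R) := fun g h =>
  decidable_of_iff (g.sw = h.sw ∧ g.e = h.e ∧ g.e' = h.e' ∧ g.c = h.c ∧ g.d = h.d)
    (by cases g; cases h; simp)

/-- the symmetries as tuples -/
def Sy.equiv (R : Type) : Bool × Bool × Bool × R × R ≃ Sy R where
  toFun t := ⟨t.1, t.2.1, t.2.2.1, t.2.2.2.1, t.2.2.2.2⟩
  invFun g := (g.sw, g.e, g.e', g.c, g.d)
  left_inv _ := rfl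
  right_inv _ := rfl

instance {R : Type} [Fintype R] : Fintype (Sy R) := Fintype.ofEquiv _ (Sy.equiv R)

instance {N r : ℕ} (q : Fin r → ℕ) (T : Finset ((ZMod N × ZMod N) × Fin r))
    (s : ((ZMod N × ZMod N) × Fin r) × Fin N × Fin N) : Decidable (InTile q T s) := by
  unfold InTile
  infer_instance

set_option synthInstance.maxSize 4000 in
instance {N r : ℕ} [NeZero N] (q : Fin r → ℕ) (T : Finset ((ZMod N × ZMod N) × Fin r)) :
    Decidable (Tiles q T) := by
  unfold Tiles
  infer_instance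

instance {N r : ℕ} [NeZero N] (q : Fin r → ℕ) (T : Finset ((ZMod N × ZMod N) × Fin r))
    (g : Sy (ZMod N)) : Decidable (IsSy q T g) := by
  unfold IsSy
  infer_instance

set_option synthInstance.maxSize 4000 in
instance {N r : ℕ} [NeZero N] (q : Fin r → ℕ) (T : Finset ((ZMod N × ZMod N) × Fin r)) :
    Decidable (Grid N r q T) :=
  decidable_of_iff ((∀ i, 1 ≤ q i ∧ q i ≤ N) ∧ (∀ i, ∃ z, (z, i) ∈ T) ∧ Tiles q T ∧
    (∀ (i : Fin r) (z z' : ZMod N × ZMod N), (z, i) ∈ T → (z', i) ∈ T →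
      ∃ g, g.act (q i) z = z' ∧ IsSy q T g) ∧
    ∀ (i : Fin r) (z : ZMod N × ZMod N), (z, i) ∈ T →
      ((z.1 + (q i : ZMod N), z.2), i) ∉ T ∧ ((z.1, z.2 + (q i : ZMod N)), i) ∉ T)
    ⟨fun h => ⟨h.1, h.2.1, h.2.2.1, h.2.2.2.1, h.2.2.2.2⟩,
      fun h => ⟨h.size, h.used, h.tiles, h.equi, h.uni⟩⟩

/-! ### from the torus to the plane -/

/-- reduction modulo `N` -/
def cl (N : ℕ) {r : ℕ} (t : (ℤ × ℤ) × Fin r) : (ZMod N × ZMod N) × Fin r :=
  (((t.1.1 : ZMod N), (t.1.2 : ZMod N)), t.2)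

theorem co_cast {N : ℕ} (sw e : Bool) (c : ℤ) (s : ℕ) (x y : ℤ) :
    ((co sw e c s x y : ℤ) : ZMod N) = co sw e (c : ZMod N) s (x : ZMod N) (y : ZMod N) := by
  unfold co
  cases e <;> cases sw <;> simp

/-- lifts of a symmetry -/
theorem exists_lift {N : ℕ} (sw e : Bool) (c : ZMod N) (s : ℕ) (x y x' : ℤ)
    (h : co sw e c s (x : ZMod N) (y : ZMod N) = (x' : ZMod N)) :
    ∃ c' : ℤ, (c' : ZMod N) = c ∧ co sw e c' s x y = x' := by
  refine ⟨x' - co sw e 0 s x y, ?_, ?_⟩
  · rw [Int.cast_sub, co_cast, ← h]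
    unfold co
    simp
  · unfold co
    simp

section

variable {N r : ℕ} {q : Fin r → ℕ} {T : Finset ((ZMod N × ZMod N) × Fin r)}

/-- two tiles of the lifted tiling with a common cell are equal -/
theorem Grid.eq_of_mem (h : Grid N r q T) {t t' : (ℤ × ℤ) × Fin r} (ht : cl N t ∈ T)
    (ht' : cl N t' ∈ T) {a b : ℤ} (h1 : t.1.1 ≤ a) (h2 : a < t.1.1 + q t.2) (h3 : t.1.2 ≤ b)
    (h4 : b < t.1.2 + q t.2) (h1' : t'.1.1 ≤ a) (h2' : a < t'.1.1 + q t'.2) (h3' : t'.1.2 ≤ b)
    (h4' : b < t'.1.2 + q t'.2) : t = t' := by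
  have key : ∀ t : (ℤ × ℤ) × Fin r, cl N t ∈ T → t.1.1 ≤ a → a < t.1.1 + q t.2 → t.1.2 ≤ b →
      b < t.1.2 + q t.2 → ∃ s : ((ZMod N × ZMod N) × Fin r) × Fin N × Fin N,
        InTile q T s ∧ cell s = ((a : ZMod N), (b : ZMod N)) ∧ s.1 = cl N t ∧
          (s.2.1.val : ℤ) = a - t.1.1 ∧ (s.2.2.val : ℤ) = b - t.1.2 := by
    intro t ht h1 h2 h3 h4
    have hq := (h.size t.2).2
    refine ⟨(cl N t, ⟨(a - t.1.1).toNat, by omega⟩, ⟨(b - t.1.2).toNat, by omega⟩),
      ⟨ht, ?_, ?_⟩, ?_, rfl, ?_, ?_⟩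
    · show (a - t.1.1).toNat < q t.2
      omega
    · show (b - t.1.2).toNat < q t.2
      omega
    · unfold cell cl
      have e1 : (((a - t.1.1).toNat : ℕ) : ZMod N) = ((a - t.1.1 : ℤ) : ZMod N) := by
        have : (((a - t.1.1).toNat : ℕ) : ℤ) = a - t.1.1 := Int.toNat_of_nonneg (by omega)
        rw [← this]
        push_cast
        rfl
      have e2 : (((b - t.1.2).toNat : ℕ) : ZMod N) = ((b - t.1.2 : ℤ) : ZMod N) := by
        have : (((b - t.1.2).toNat : ℕ) : ℤ) = b - t.1.2 := Int.toNat_of_nonneg (by omega)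
        rw [← this]
        push_cast
        rfl
      simp only
      rw [e1, e2]
      push_cast
      simp
    · show (((a - t.1.1).toNat : ℕ) : ℤ) = _
      omega
    · show (((b - t.1.2).toNat : ℕ) : ℤ) = _
      omega
  obtain ⟨s, hs, hc, hs1, hs2, hs3⟩ := key t ht h1 h2 h3 h4
  obtain ⟨s', hs', hc', hs1', hs2', hs3'⟩ := key t' ht' h1' h2' h3' h4'
  have e := h.tiles.2 s s' hs hs' (hc.trans hc'.symm)
  subst e
  have e1 : t.1.1 = t'.1.1 := by omega
  have e2 : t.1.2 = t'.1.2 := by omega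
  have e3 : t.2 = t'.2 := by
    have h9 := congrArg Prod.snd (hs1.symm.trans hs1')
    exact h9
  exact Prod.ext (Prod.ext e1 e2) e3

/-- THE TILING OF THE PLANE -/
theorem Grid.exists_pic [NeZero N] (h : Grid N r q T) :
    ∃ (ι : Type) (p : Pic ι r), p.P = fun i => (q i : ℝ) := by
  classical
  refine ⟨{t : (ℤ × ℤ) × Fin r // cl N t ∈ T},
    { k := fun t => t.1.2
      P := fun i => (q i : ℝ)
      X := fun t => (t.1.1.1 : ℝ)
      Y := fun t => (t.1.1.2 : ℝ)
      pos := ?_, surj := ?_, cov := ?_, sep := ?_, sym := ?_, uni := ?_ }, rfl⟩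
  · intro i
    have := (h.size i).1
    exact_mod_cast this
  · intro i
    obtain ⟨⟨z1, z2⟩, hz⟩ := h.used i
    refine ⟨⟨(((z1.val : ℤ), (z2.val : ℤ)), i), ?_⟩, rfl⟩
    unfold cl
    simpa using hz
  · intro x y
    obtain ⟨⟨⟨⟨z1, z2⟩, i⟩, ⟨a, ha⟩, ⟨b, hb⟩⟩, ⟨hs1, hs2, hs3⟩, hc⟩ :=
      h.tiles.1 ((⌊x⌋ : ZMod N), (⌊y⌋ : ZMod N))
    simp only at hs1 hs2 hs3
    unfold cell at hc
    simp only [Prod.mk.injEq] at hc
    refine ⟨⟨((⌊x⌋ - a, ⌊y⌋ - b), i), ?_⟩, ?_, ?_, ?_, ?_⟩
    · unfold cl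
      simp only
      push_cast
      rw [← hc.1, ← hc.2]
      simpa using hs1
    · push_cast
      have := Int.floor_le x
      have : (0 : ℝ) ≤ a := by positivity
      linarith
    · push_cast
      have h1 := Int.lt_floor_add_one x
      have h2 : (a : ℝ) + 1 ≤ q i := by exact_mod_cast hs2
      linarith
    · push_cast
      have := Int.floor_le y
      have : (0 : ℝ) ≤ b := by positivity
      linarith
    · push_cast
      have h1 := Int.lt_floor_add_one y
      have h2 : (b : ℝ) + 1 ≤ q i := by exact_mod_cast hs3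
      linarith
  · rintro ⟨t, ht⟩ ⟨t', ht'⟩ hne
    simp only
    by_contra hcon
    push Not at hcon
    obtain ⟨g1, g2, g3, g4⟩ := hcon
    have g1' : t'.1.1 < t.1.1 + q t.2 := by exact_mod_cast g1
    have g2' : t.1.1 < t'.1.1 + q t'.2 := by exact_mod_cast g2
    have g3' : t'.1.2 < t.1.2 + q t.2 := by exact_mod_cast g3
    have g4' : t.1.2 < t'.1.2 + q t'.2 := by exact_mod_cast g4
    have hq := (h.size t.2).1
    have hq' := (h.size t'.2).1
    apply hne
    have := h.eq_of_mem ht ht' (a := max t.1.1 t'.1.1) (b := max t.1.2 t'.1.2)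
      (by omega) (by omega) (by omega) (by omega) (by omega) (by omega) (by omega) (by omega)
    exact Subtype.ext this
  · rintro ⟨t, ht⟩ ⟨t', ht'⟩ hk
    simp only at hk
    obtain ⟨g, hg, hsy⟩ := h.equi t.2 _ _ ht (by rw [hk]; exact ht')
    unfold Sy.act at hg
    simp only [Prod.mk.injEq] at hg
    obtain ⟨c, hc, hc'⟩ := exists_lift g.sw g.e g.c (q t.2) t.1.1 t.1.2 t'.1.1 hg.1
    obtain ⟨d, hd, hd'⟩ := exists_lift g.sw g.e' g.d (q t.2) t.1.2 t.1.1 t'.1.2 hg.2
    let A : Sg := { sw := g.sw, e := if g.e then -1 else 1, e' := if g.e' then -1 else 1,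
                    he := by split_ifs <;> simp, he' := by split_ifs <;> simp }
    refine ⟨A, fun u => ⟨((co g.sw g.e c (q u.1.2) u.1.1.1 u.1.1.2,
      co g.sw g.e' d (q u.1.2) u.1.1.2 u.1.1.1), u.1.2), ?_⟩, ?_⟩
    · have h1 := (hsy _ _).1 u.2
      unfold Sy.act at h1
      unfold cl
      simp only
      rw [co_cast, co_cast, hc, hd]
      exact h1
    · rintro ⟨u, hu⟩
      refine ⟨rfl, ?_, ?_⟩
      · simp only [A, Sg.fst]
        rw [← hc', hk]
        unfold co
        cases g.e <;> cases g.sw <;> simp <;> ring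
      · simp only [A, Sg.snd]
        rw [← hd', hk]
        unfold co
        cases g.e' <;> cases g.sw <;> simp <;> ring
  · rintro ⟨t, ht⟩ ⟨t', ht'⟩ hk
    simp only at hk ⊢
    obtain ⟨h1, h2⟩ := h.uni t.2 _ ht
    constructor
    · rintro ⟨e1, e2⟩
      have e1' : t'.1.1 = t.1.1 + q t.2 := by exact_mod_cast e1
      have e2' : t'.1.2 = t.1.2 := by exact_mod_cast e2
      apply h1
      have := ht'
      unfold cl at this
      rw [e1', e2', ← hk] at this
      simpa [cl] using this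
    · rintro ⟨e1, e2⟩
      have e1' : t'.1.1 = t.1.1 := by exact_mod_cast e1
      have e2' : t'.1.2 = t.1.2 + q t.2 := by exact_mod_cast e2
      apply h2
      have := ht'
      unfold cl at this
      rw [e1', e2', ← hk] at this
      simpa [cl] using this

/-! ### from the plane to the torus -/

theorem co_inj {R : Type} [Ring R] {sw e e' : Bool} {c d : R} {s : ℕ} {x y x' y' : R}
    (h1 : co sw e c s x y = co sw e c s x' y') (h2 : co sw e' d s y x = co sw e' d s y' x') :
    x = x' ∧ y = y' := by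
  unfold co at h1 h2
  cases sw <;> cases e <;> cases e' <;> simp_all

theorem act_inj {R : Type} [Ring R] (g : Sy R) {s : ℕ} {z z' : R × R}
    (h : g.act s z = g.act s z') : z = z' := by
  unfold Sy.act at h
  rw [Prod.mk.injEq] at h
  obtain ⟨h1, h2⟩ := co_inj h.1 h.2
  exact Prod.ext h1 h2

/-- a map of the torus which maps `T` into `T` is a symmetry -/
theorem isSy_of_maps {g : Sy (ZMod N)}
    (h : ∀ (w : ZMod N × ZMod N) (j : Fin r), (w, j) ∈ T → (g.act (q j) w, j) ∈ T) :
    IsSy q T g := by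
  classical
  intro w j
  refine ⟨h w j, fun hw => ?_⟩
  let f : ((ZMod N × ZMod N) × Fin r) → ((ZMod N × ZMod N) × Fin r) :=
    fun t => (g.act (q t.2) t.1, t.2)
  have hf : Function.Injective f := by
    rintro ⟨w, j⟩ ⟨w', j'⟩ he
    simp only [f, Prod.mk.injEq] at he
    obtain ⟨he1, rfl⟩ := he
    rw [act_inj g he1]
  have himg : T.image f ⊆ T := by
    intro t ht
    obtain ⟨⟨w, j⟩, hwj, rfl⟩ := mem_image.1 ht
    exact h w j hwj
  have heq : T.image f = T := eq_of_subset_of_card_le himg (by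
    rw [card_image_of_injective _ hf])
  have h1 : f (w, j) ∈ T.image f := by
    rw [heq]
    exact hw
  obtain ⟨t, ht, he⟩ := mem_image.1 h1
  rw [hf he] at ht
  exact ht

/-- THE TILING OF THE TORUS: `p` is a tiling of the plane with integer coordinates, invariant under
the translations by multiples of `N` -/
theorem exists_grid {ι : Type} (p : Pic ι r) (X Y : ι → ℤ) (hN : 0 < N)
    (hX : ∀ i, p.X i = X i) (hY : ∀ i, p.Y i = Y i) (hP : ∀ k, p.P k = q k)
    (htr : ∀ (i : ι) (a b : ℤ), ∃ j, p.k j = p.k i ∧ X j = X i + N * a ∧ Y j = Y i + N * b) :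
    ∃ T, Grid N r q T := by
  classical
  have : NeZero N := ⟨hN.ne'⟩
  have hpos : ∀ k, 1 ≤ q k := by
    intro k
    have := p.pos k
    rw [hP k] at this
    exact_mod_cast this
  have hsep : ∀ i j, i ≠ j → X i + q (p.k i) ≤ X j ∨ X j + q (p.k j) ≤ X i ∨
      Y i + q (p.k i) ≤ Y j ∨ Y j + q (p.k j) ≤ Y i := by
    intro i j hij
    have h := p.sep i j hij
    rw [hX, hX, hY, hY, hP, hP] at h
    exact_mod_cast h
  have hle : ∀ k, q k ≤ N := by
    intro k
    obtain ⟨i, rfl⟩ := p.surj k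
    obtain ⟨j, hj, hjX, hjY⟩ := htr i 1 0
    have hij : i ≠ j := by
      rintro rfl
      omega
    have h1 := hpos (p.k i)
    rcases hsep i j hij with h | h | h | h
    · rw [hjX] at h
      omega
    · rw [hjX, hj] at h
      omega
    · rw [hjY] at h
      omega
    · rw [hjY, hj] at h
      omega
  set T : Finset ((ZMod N × ZMod N) × Fin r) :=
    univ.filter fun t => ∃ i, cl N ((X i, Y i), p.k i) = t with hT
  have hmem : ∀ t, t ∈ T ↔ ∃ i, cl N ((X i, Y i), p.k i) = t := by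
    intro t
    rw [hT, mem_filter]
    simp
  -- a tile with a given congruent position
  have hlift : ∀ (i : ι) (x y : ℤ), (X i : ZMod N) = x → (Y i : ZMod N) = y →
      ∃ j, p.k j = p.k i ∧ X j = x ∧ Y j = y := by
    intro i x y hx hy
    rw [ZMod.intCast_eq_intCast_iff_dvd_sub] at hx hy
    obtain ⟨a, ha⟩ := hx
    obtain ⟨b, hb⟩ := hy
    obtain ⟨j, hj, h1, h2⟩ := htr i a b
    exact ⟨j, hj, by omega, by omega⟩
  have heq : ∀ i j (a b : ℤ), X i ≤ a → a < X i + q (p.k i) → Y i ≤ b → b < Y i + q (p.k i) →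
      X j ≤ a → a < X j + q (p.k j) → Y j ≤ b → b < Y j + q (p.k j) → i = j := by
    intro i j a b h1 h2 h3 h4 h5 h6 h7 h8
    by_contra hij
    rcases hsep i j hij with h | h | h | h <;> omega
  refine ⟨T, { size := fun k => ⟨hpos k, hle k⟩, used := ?_, tiles := ⟨?_, ?_⟩, equi := ?_,
               uni := ?_ }⟩
  · intro k
    obtain ⟨i, hi⟩ := p.surj k
    exact ⟨((X i : ZMod N), (Y i : ZMod N)), (hmem _).2 ⟨i, by rw [← hi]; rfl⟩⟩
  · rintro ⟨w1, w2⟩
    obtain ⟨i, h1, h2, h3, h4⟩ := p.cov ((w1.val : ℝ) + 1 / 2) ((w2.val : ℝ) + 1 / 2)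
    rw [hX] at h1 h2
    rw [hY] at h3 h4
    rw [hP] at h2 h4
    have g1 : X i ≤ w1.val := by
      by_contra hcon
      have : ((w1.val : ℤ) : ℝ) + 1 ≤ X i := by exact_mod_cast (by omega : (w1.val : ℤ) + 1 ≤ X i)
      push_cast at this
      linarith
    have g2 : (w1.val : ℤ) < X i + q (p.k i) := by
      by_contra hcon
      have : ((X i : ℤ) : ℝ) + q (p.k i) ≤ ((w1.val : ℤ) : ℝ) := by
        exact_mod_cast (by omega : X i + q (p.k i) ≤ (w1.val : ℤ))
      push_cast at this
      linarith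
    have g3 : Y i ≤ w2.val := by
      by_contra hcon
      have : ((w2.val : ℤ) : ℝ) + 1 ≤ Y i := by exact_mod_cast (by omega : (w2.val : ℤ) + 1 ≤ Y i)
      push_cast at this
      linarith
    have g4 : (w2.val : ℤ) < Y i + q (p.k i) := by
      by_contra hcon
      have : ((Y i : ℤ) : ℝ) + q (p.k i) ≤ ((w2.val : ℤ) : ℝ) := by
        exact_mod_cast (by omega : Y i + q (p.k i) ≤ (w2.val : ℤ))
      push_cast at this
      linarith
    have hq := hle (p.k i)
    have e1 : (((w1.val - X i).toNat : ℕ) : ℤ) = w1.val - X i := Int.toNat_of_nonneg (by omega)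
    have e2 : (((w2.val - Y i).toNat : ℕ) : ℤ) = w2.val - Y i := Int.toNat_of_nonneg (by omega)
    refine ⟨(cl N ((X i, Y i), p.k i), ⟨(w1.val - X i).toNat, by omega⟩,
      ⟨(w2.val - Y i).toNat, by omega⟩), ⟨(hmem _).2 ⟨i, rfl⟩, ?_, ?_⟩, ?_⟩
    · show (w1.val - X i).toNat < q (p.k i)
      omega
    · show (w2.val - Y i).toNat < q (p.k i)
      omega
    · unfold cell cl
      simp only
      have e1' : (((w1.val - X i).toNat : ℕ) : ZMod N) = w1 - (X i : ZMod N) := by
        calc (((w1.val - X i).toNat : ℕ) : ZMod N)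
            = ((((w1.val - X i).toNat : ℕ) : ℤ) : ZMod N) := by rw [Int.cast_natCast]
          _ = ((w1.val - X i : ℤ) : ZMod N) := by rw [e1]
          _ = w1 - (X i : ZMod N) := by
            rw [Int.cast_sub, Int.cast_natCast, ZMod.natCast_zmod_val]
      have e2' : (((w2.val - Y i).toNat : ℕ) : ZMod N) = w2 - (Y i : ZMod N) := by
        calc (((w2.val - Y i).toNat : ℕ) : ZMod N)
            = ((((w2.val - Y i).toNat : ℕ) : ℤ) : ZMod N) := by rw [Int.cast_natCast]
          _ = ((w2.val - Y i : ℤ) : ZMod N) := by rw [e2]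
          _ = w2 - (Y i : ZMod N) := by
            rw [Int.cast_sub, Int.cast_natCast, ZMod.natCast_zmod_val]
      rw [e1', e2']
      simp
  · rintro ⟨⟨z, k⟩, a, b⟩ ⟨⟨z', k'⟩, a', b'⟩ ⟨hs1, hs2, hs3⟩ ⟨hs1', hs2', hs3'⟩ hc
    simp only at hs1 hs2 hs3 hs1' hs2' hs3'
    obtain ⟨i, hi⟩ := (hmem _).1 hs1
    obtain ⟨i', hi'⟩ := (hmem _).1 hs1'
    unfold cl at hi hi'
    simp only [Prod.mk.injEq] at hi hi'
    obtain ⟨rfl, rfl⟩ := hi
    obtain ⟨rfl, rfl⟩ := hi'
    unfold cell at hc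
    simp only [Prod.mk.injEq] at hc
    obtain ⟨j, hj, hjX, hjY⟩ := hlift i' (X i + a.val - a'.val) (Y i + b.val - b'.val)
      (by push_cast; rw [hc.1]; ring) (by push_cast; rw [hc.2]; ring)
    have hij : i = j := by
      rw [← hj] at hs2' hs3'
      exact heq i j (X i + a.val) (Y i + b.val) (by omega) (by omega) (by omega) (by omega)
        (by omega) (by omega) (by omega) (by omega)
    subst hij
    have h1 : a = a' := Fin.ext (by omega)
    have h2 : b = b' := Fin.ext (by omega)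
    have h3 : (X i : ZMod N) = X i' := by
      have := hc.1
      rw [h1] at this
      simpa using this
    have h4 : (Y i : ZMod N) = Y i' := by
      have := hc.2
      rw [h2] at this
      simpa using this
    rw [h1, h2, h3, h4, hj]
  · intro k z z' hz hz'
    obtain ⟨i, hi⟩ := (hmem _).1 hz
    obtain ⟨i', hi'⟩ := (hmem _).1 hz'
    unfold cl at hi hi'
    simp only [Prod.mk.injEq] at hi hi'
    obtain ⟨rfl, rfl⟩ := hi
    obtain ⟨rfl, hk⟩ := hi'
    obtain ⟨A, σ, hσ⟩ := p.sym i i' hk.symm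
    set e : Bool := decide (A.e = -1) with he
    set e' : Bool := decide (A.e' = -1) with he'
    set c : ℤ := X i' - co A.sw e 0 (q (p.k i)) (X i) (Y i) with hc
    set d : ℤ := Y i' - co A.sw e' 0 (q (p.k i)) (Y i) (X i) with hd
    have hAe : (A.e = 1 ∧ e = false) ∨ (A.e = -1 ∧ e = true) := by
      rcases A.he with h | h
      · left
        exact ⟨h, by rw [he, h]; simp⟩
      · right
        exact ⟨h, by rw [he, h]; simp⟩
    have hAe' : (A.e' = 1 ∧ e' = false) ∨ (A.e' = -1 ∧ e' = true) := by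
      rcases A.he' with h | h
      · left
        exact ⟨h, by rw [he', h]; simp⟩
      · right
        exact ⟨h, by rw [he', h]; simp⟩
    have key1 : ∀ t, X (σ t) = co A.sw e c (q (p.k t)) (X t) (Y t) := by
      intro t
      have h := (hσ t).2.1
      rw [hX, hX, hX, hX, hY, hY, hP, hP, hP, hk] at h
      have h' : (2 : ℝ) * X (σ t) = 2 * (co A.sw e c (q (p.k t)) (X t) (Y t) : ℤ) := by
        rw [hc]
        unfold co
        unfold Sg.fst at h
        rcases hAe with ⟨h1, h2⟩ | ⟨h1, h2⟩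
        · rw [h1] at h
          rw [h2]
          cases hsw : A.sw <;> rw [hsw] at h <;> simp at h ⊢ <;> linarith
        · rw [h1] at h
          rw [h2]
          cases hsw : A.sw <;> rw [hsw] at h <;> simp at h ⊢ <;> linarith
      have h'' : (X (σ t) : ℝ) = ((co A.sw e c (q (p.k t)) (X t) (Y t) : ℤ) : ℝ) := by linarith
      exact_mod_cast h''
    have key2 : ∀ t, Y (σ t) = co A.sw e' d (q (p.k t)) (Y t) (X t) := by
      intro t
      have h := (hσ t).2.2
      rw [hY, hX, hX, hY, hY, hY, hP, hP, hP, hk] at h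
      have h' : (2 : ℝ) * Y (σ t) = 2 * (co A.sw e' d (q (p.k t)) (Y t) (X t) : ℤ) := by
        rw [hd]
        unfold co
        unfold Sg.snd at h
        rcases hAe' with ⟨h1, h2⟩ | ⟨h1, h2⟩
        · rw [h1] at h
          rw [h2]
          cases hsw : A.sw <;> rw [hsw] at h <;> simp at h ⊢ <;> linarith
        · rw [h1] at h
          rw [h2]
          cases hsw : A.sw <;> rw [hsw] at h <;> simp at h ⊢ <;> linarith
      have h'' : (Y (σ t) : ℝ) = ((co A.sw e' d (q (p.k t)) (Y t) (X t) : ℤ) : ℝ) := by linarith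
      exact_mod_cast h''
    refine ⟨{ sw := A.sw, e := e, e' := e', c := (c : ZMod N), d := (d : ZMod N) }, ?_, ?_⟩
    · unfold Sy.act
      simp only
      rw [← co_cast, ← co_cast]
      have h1 : co A.sw e c (q (p.k i)) (X i) (Y i) = X i' := by
        rw [hc]
        unfold co
        simp
      have h2 : co A.sw e' d (q (p.k i)) (Y i) (X i) = Y i' := by
        rw [hd]
        unfold co
        simp
      rw [h1, h2]
    · refine isSy_of_maps ?_
      intro w j hw
      obtain ⟨t, ht⟩ := (hmem _).1 hw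
      unfold cl at ht
      simp only [Prod.mk.injEq] at ht
      obtain ⟨rfl, rfl⟩ := ht
      refine (hmem _).2 ⟨σ t, ?_⟩
      unfold Sy.act cl
      simp only
      rw [← co_cast, ← co_cast, key1, key2, (hσ t).1]
  · intro k z hz
    obtain ⟨i, hi⟩ := (hmem _).1 hz
    unfold cl at hi
    simp only [Prod.mk.injEq] at hi
    obtain ⟨rfl, rfl⟩ := hi
    constructor
    · intro h
      obtain ⟨i', hi'⟩ := (hmem _).1 h
      unfold cl at hi'
      simp only [Prod.mk.injEq] at hi'
      obtain ⟨⟨h1, h2⟩, h3⟩ := hi'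
      obtain ⟨j, hj, hjX, hjY⟩ := hlift i' (X i + q (p.k i)) (Y i) (by push_cast; exact h1) h2
      refine (p.uni i j (by rw [hj, h3])).1 ⟨?_, ?_⟩
      · rw [hX, hX, hP, hjX]
        push_cast
        rfl
      · rw [hY, hY, hjY]
    · intro h
      obtain ⟨i', hi'⟩ := (hmem _).1 h
      unfold cl at hi'
      simp only [Prod.mk.injEq] at hi'
      obtain ⟨⟨h1, h2⟩, h3⟩ := hi'
      obtain ⟨j, hj, hjX, hjY⟩ := hlift i' (X i) (Y i + q (p.k i)) h1 (by push_cast; exact h2)
      refine (p.uni i j (by rw [hj, h3])).2 ⟨?_, ?_⟩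
      · rw [hX, hX, hjX]
      · rw [hY, hY, hP, hjY]
        push_cast
        rfl

end

end Pool.Agent.Helper76.SQG
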