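import Pool.Agent.Helper76.SQG.Cel
import Pool.Agent.Helper76.SQG.Grid

/-!
# MP_309e91_co : the size vectors are found by an explicit finite search
-/

set_option autoImplicit false

namespace Pool.Agent.Helper76.SQG

open Finset Module Pool.Agent.Helper32.SQ

/-- the bound for the size of the grid -/
def Mr (r : ℕ) : ℕ := (10 ^ 7 * (r + 1) ^ 2) ^ (2 ^ (65 * r + 14))

theorem le_tb (m : ℕ) {B : ℤ} (hB : 1 ≤ B) : B ≤ tb m B := by
  induction m with
  | zero => exact le_refl _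
  | succ m ih =>
    rw [tb]
    nlinarith

theorem one_le_cb (c K : ℕ) : 1 ≤ cb c K := by
  unfold cb
  omega

theorem tb_le_Br (r : ℕ) : tb 2 (cb (cr r) ((12 * cr r + 1) ^ 2)) ≤ Br r := by
  have h1 := le_Br (r := r) (N := 0) (Nat.zero_le _)
  have h2 : (1 : ℤ) ≤ tb 2 (cb (cr r) ((12 * cr r + 1) ^ 2)) :=
    (one_le_cb _ _).trans (le_tb 2 (one_le_cb _ _))
  exact (le_tb _ h2).trans h1

theorem sim_inl {κ μ : Type} [Fintype κ] [Fintype μ] {B : ℤ} {x y : κ ⊕ μ → ℝ}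
    (h : Sim B x y) : Sim B (x ∘ Sum.inl) (y ∘ Sum.inl) := by
  intro ρ hρ
  have h1 : IsLin B (fun w : κ → ℝ => fv ρ w) := ⟨ρ, hρ, fun _ => rfl⟩
  exact h.lt_iff (f := fun _ => (0 : ℝ)) IsLin.zero h1.inl (by simp)

/-- the size of the determinant -/
theorem det_le {r n : ℕ} (hn : n ≤ 33 * r + 4) {a b c d : ℤ} (ha : |a| ≤ mb n (Br r))
    (hb : |b| ≤ mb n (Br r)) (hc : |c| ≤ mb n (Br r)) (hd : |d| ≤ mb n (Br r)) :
    (a * b - c * d).natAbs ≤ Mr r := by
  have hB2 := two_le_Br r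
  have hB1 : (1 : ℤ) ≤ Br r := by omega
  have h1 := mb_le n hB1
  have h2 : (2 * Br r) ^ (3 * 2 ^ n) ≤ (2 * Br r) ^ (3 * 2 ^ (33 * r + 4)) := by
    refine pow_le_pow_right₀ (by omega) ?_
    exact Nat.mul_le_mul_left _ (Nat.pow_le_pow_right (by norm_num) hn)
  set m := mb n (Br r) with hm
  set E := (2 * Br r) ^ (3 * 2 ^ (33 * r + 4)) with hE
  have hm0 : 0 ≤ m := (abs_nonneg a).trans ha
  have hmE : m ≤ E := h1.trans h2
  have h3 : |a * b - c * d| ≤ 2 * E ^ 2 := by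
    have g1 := abs_sub (a * b) (c * d)
    rw [abs_mul, abs_mul] at g1
    have g2 : |a| * |b| ≤ m * m := mul_le_mul ha hb (abs_nonneg _) hm0
    have g3 : |c| * |d| ≤ m * m := mul_le_mul hc hd (abs_nonneg _) hm0
    nlinarith
  have h4 : 2 * E ^ 2 ≤ (Mr r : ℤ) := by
    have e1 : E ^ 2 = (2 * Br r) ^ (6 * 2 ^ (33 * r + 4)) := by
      rw [hE, ← pow_mul]
      congr 1
      ring
    have e2 : 2 * E ^ 2 ≤ (2 * Br r) ^ (6 * 2 ^ (33 * r + 4) + 1) := by
      have e1' : (2 * Br r) ^ (6 * 2 ^ (33 * r + 4) + 1) = E ^ 2 * (2 * Br r) := by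
        rw [e1, pow_succ]
      rw [e1']
      have : (0 : ℤ) ≤ E ^ 2 := by positivity
      nlinarith
    have e3 : (2 * Br r) ^ (6 * 2 ^ (33 * r + 4) + 1) ≤ (2 * Br r) ^ (2 ^ (33 * r + 7)) := by
      refine pow_le_pow_right₀ (by omega) ?_
      have : 2 ^ (33 * r + 7) = 8 * 2 ^ (33 * r + 4) := by
        rw [show 33 * r + 7 = (33 * r + 4) + 3 by ring, pow_add]
        ring
      rw [this]
      have : 1 ≤ 2 ^ (33 * r + 4) := Nat.one_le_two_pow
      omega
    have e4 : (2 * Br r) ^ (2 ^ (33 * r + 7)) ≤ (Br r ^ 2) ^ (2 ^ (33 * r + 7)) :=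
      pow_le_pow_left₀ (by omega) (by nlinarith) _
    have e5 : (Br r ^ 2) ^ (2 ^ (33 * r + 7)) = (Mr r : ℤ) := by
      unfold Br Mr
      push_cast
      rw [← pow_mul, ← pow_mul]
      congr 1
      rw [show 65 * r + 14 = (32 * r + 6) + 1 + (33 * r + 7) by ring, pow_add, pow_add]
      ring
    rw [← e5]
    exact e2.trans (e3.trans e4)
  have h5 : ((a * b - c * d).natAbs : ℤ) = |a * b - c * d| := Int.natCast_natAbs _
  have h6 : ((a * b - c * d).natAbs : ℤ) ≤ (Mr r : ℤ) := by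
    rw [h5]
    exact h3.trans h4
  exact_mod_cast h6

theorem mb_le_Mr (r : ℕ) : mb r (Br r) ≤ (Mr r : ℤ) := by
  have hB1 : (1 : ℤ) ≤ Br r := by have := two_le_Br r; omega
  have hm0 := mb_nonneg r (Br r) (by omega)
  rcases hm0.eq_or_lt with h0 | h0
  · rw [← h0]
    positivity
  · have h1 : |(mb r (Br r) : ℤ)| ≤ mb r (Br r) := (abs_of_nonneg hm0).le
    have h2 : |(1 : ℤ)| ≤ mb r (Br r) := by
      rw [abs_one]
      exact h0
    have h3 : |(0 : ℤ)| ≤ mb r (Br r) := by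
      rw [abs_zero]
      exact hm0
    have h4 := det_le (r := r) (n := r) (by omega) h1 h2 h3 h3
    rw [mul_one, mul_zero, sub_zero] at h4
    have h5 : ((mb r (Br r)).natAbs : ℤ) = mb r (Br r) := by
      rw [Int.natCast_natAbs]
      exact abs_of_nonneg hm0
    rw [← h5]
    exact_mod_cast h4

/-- from a finite presentation to the grid -/
theorem grid_of_good {Q : Type} [Fintype Q] {r : ℕ} (hcard : Fintype.card Q ≤ 16 * r)
    {k' : Q → Fin r} {top : Fin r} {S : Sys Q r} (hk' : Function.Surjective k')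
    (hgood : Good k' top (cr r) ((12 * cr r + 1) ^ 2) S) :
    ∃ (q : Fin r → ℕ) (N : ℕ) (T : Finset ((ZMod N × ZMod N) × Fin r)), 0 < N ∧ N ≤ Mr r ∧
      Grid N r q T ∧ Sim (Br r) S.P (fun i => (q i : ℝ)) := by
  set x : Vec Q r := Sum.elim S.P (Sum.elim S.X (Sum.elim S.Y ![S.u.1, S.u.2, S.v.1, S.v.2]))
    with hx
  have hxS : toSys x = S := rfl
  have hB1 : (1 : ℤ) ≤ Br r := by have := two_le_Br r; omega
  obtain ⟨z, hz, hs⟩ := cel hB1 x
  have hcardV : Fintype.card (Fin r ⊕ (Q ⊕ (Q ⊕ Fin 4))) ≤ 33 * r + 4 := by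
    rw [Fintype.card_sum, Fintype.card_sum, Fintype.card_sum, Fintype.card_fin, Fintype.card_fin]
    omega
  have hgood' : Good k' top (cr r) ((12 * cr r + 1) ^ 2) (toSys fun k => (z k : ℝ)) := by
    refine Good.transfer (x := x) (by rw [hxS]; exact hgood) (hs.mono (tb_le_Br r))
  set pc := hgood'.pic (by unfold cr; omega) (Nat.one_le_pow _ _ (by omega)) hk' with hpc
  -- the data
  set u1 := z (Sum.inr (Sum.inr (Sum.inr 0))) with hu1
  set u2 := z (Sum.inr (Sum.inr (Sum.inr 1))) with hu2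
  set v1 := z (Sum.inr (Sum.inr (Sum.inr 2))) with hv1
  set v2 := z (Sum.inr (Sum.inr (Sum.inr 3))) with hv2
  set D : ℤ := u1 * v2 - u2 * v1 with hD
  have hD0 : D ≠ 0 := by
    have h1 := hgood'.det_ne (by unfold cr; omega) (Nat.one_le_pow _ _ (by omega))
    intro h0
    apply h1
    have h2 : dt (toSys fun k => (z k : ℝ)).u (toSys fun k => (z k : ℝ)).v = ((D : ℤ) : ℝ) := by
      rw [hD]
      push_cast
      rfl
    rw [h2, h0]
    simp
  have hposz : ∀ i : Fin r, 0 < z (Sum.inl i) := by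
    intro i
    have := hgood'.pos i
    change (0 : ℝ) < ((z (Sum.inl i) : ℤ) : ℝ) at this
    exact_mod_cast this
  have hqz : ∀ i : Fin r, (((z (Sum.inl i)).toNat : ℕ) : ℤ) = z (Sum.inl i) := fun i =>
    Int.toNat_of_nonneg (hposz i).le
  have hqr : ∀ i : Fin r, (((z (Sum.inl i)).toNat : ℕ) : ℝ) = (z (Sum.inl i) : ℝ) := by
    intro i
    exact_mod_cast hqz i
  have hsP : Sim (Br r) S.P (fun i => (((z (Sum.inl i)).toNat : ℕ) : ℝ)) := by
    have h1 := sim_inl hs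
    have e1 : x ∘ Sum.inl = S.P := rfl
    have e2 : (fun k => (z k : ℝ)) ∘ Sum.inl =
        fun i : Fin r => (((z (Sum.inl i)).toNat : ℕ) : ℝ) := by
      funext i
      exact (hqr i).symm
    rw [e1, e2] at h1
    exact h1
  obtain ⟨T, hT⟩ := exists_grid (N := D.natAbs) (q := fun i => (z (Sum.inl i)).toNat) pc
    (fun t => z (Sum.inr (Sum.inl t.1)) + (t.2.1 * u1 + t.2.2 * v1))
    (fun t => z (Sum.inr (Sum.inr (Sum.inl t.1))) + (t.2.1 * u2 + t.2.2 * v2))
    (Int.natAbs_pos.2 hD0) (by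
      intro t
      push_cast
      rfl) (by
      intro t
      push_cast
      rfl) (by
      intro k
      rw [hqr]
      rfl) (by
      rintro ⟨t, m, n⟩ a b
      have hsg : (D.natAbs : ℤ) = D.sign * D := by
        rw [Int.natCast_natAbs]
        exact (Int.sign_mul_self_eq_abs D).symm
      refine ⟨(t, m + D.sign * (a * v2 - b * v1), n + D.sign * (b * u1 - a * u2)), rfl, ?_, ?_⟩
      · simp only
        rw [hsg, hD]
        ring
      · simp only
        rw [hsg, hD]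
        ring)
  exact ⟨fun i => (z (Sum.inl i)).toNat, D.natAbs, T, Int.natAbs_pos.2 hD0,
    det_le hcardV (hz _) (hz _) (hz _) (hz _), hT, hsP⟩

/-- FROM THE PLANE TO THE GRID -/
theorem exists_grid_of_Real {r : ℕ} {p : Fin r → ℝ} (hp : p ∈ Real' r) :
    ∃ (q : Fin r → ℕ) (N : ℕ) (T : Finset ((ZMod N × ZMod N) × Fin r)), 0 < N ∧ N ≤ Mr r ∧
      Grid N r q T ∧ StrictMono q ∧ Sim (Br r) (fun i => (q i : ℝ)) p := by
  rcases Nat.eq_zero_or_pos r with rfl | hr0
  · exact absurd hp (Real_zero p)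
  obtain ⟨hm, 𝒯, h, he, hu, hr⟩ := hp
  obtain ⟨F, hF, heq⟩ := exists_frm' h he hr
  have hfin : (F.s '' 𝒯).Finite := by rw [← hF]; exact Set.finite_range _
  have hQ := F.finite_orb hfin heq
  have hcard := F.card_orb hfin heq
  have hcr : (F.s '' 𝒯).ncard = r := by
    rw [← hF, Set.ncard_range_of_injective hm.injective, Nat.card_eq_fintype_card,
      Fintype.card_fin]
  rw [hcr] at hcard
  let _ : Fintype (Quotient (F.boxes.fam.orb F.Λ F.inv)) := Fintype.ofFinite _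
  rw [Nat.card_eq_fintype_card] at hcard
  obtain ⟨k', top, S, hSP, hk', hgood⟩ := (F.per p hm.injective hF heq hu).good
    (c := cr r) (by unfold cr; omega) (by unfold cr; omega)
  rw [F.per_P] at hSP
  obtain ⟨q, N, T, hN, hNM, hT, hsP⟩ := grid_of_good hcard hk' hgood
  rw [hSP] at hsP
  refine ⟨q, N, T, hN, hNM, hT, ?_, hsP.symm⟩
  intro i j hij
  have h1 : (q i : ℝ) < (q j : ℝ) := (hsP.lt_iff (IsLin.proj i) (IsLin.proj j)
    (by have := two_le_Br r; linarith)).1 (hm hij)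
  exact_mod_cast h1

/-- FROM THE GRID TO THE PLANE -/
theorem Real_of_grid {r N : ℕ} (hN : 0 < N) {q : Fin r → ℕ}
    {T : Finset ((ZMod N × ZMod N) × Fin r)} (hT : Grid N r q T) (hq : StrictMono q) :
    (fun i => (q i : ℝ)) ∈ Real' r := by
  have : NeZero N := ⟨hN.ne'⟩
  obtain ⟨ι, P, hP⟩ := hT.exists_pic
  have hmono : StrictMono P.P := by
    rw [hP]
    intro i j hij
    have : (q i : ℝ) < (q j : ℝ) := by exact_mod_cast hq hij
    exact this
  rw [← hP]
  exact ⟨hmono, Set.range P.tile, P.til, P.equi hmono.injective, P.uni' hmono.injective,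
    P.sz_eq.symm⟩

/-- THE SIZE VECTORS -/
theorem main (r : ℕ) (p : Fin r → ℝ) : p ∈ Real' r ↔
    ∃ (q : Fin r → ℕ) (N : ℕ) (T : Finset ((ZMod N × ZMod N) × Fin r)), 0 < N ∧ N ≤ Mr r ∧
      Grid N r q T ∧ StrictMono q ∧ Sim (Br r) (fun i => (q i : ℝ)) p := by
  constructor
  · exact exists_grid_of_Real
  · rintro ⟨q, N, T, hN, -, hT, hq, hs⟩
    exact transfer_Real' (Real_of_grid hN hT hq) hs

/-- the cells are cones -/
theorem cell_cone {r N : ℕ} (hN : 0 < N) {q : Fin r → ℕ}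
    {T : Finset ((ZMod N × ZMod N) × Fin r)} (hT : Grid N r q T) (hq : StrictMono q) :
    ∃ a b : Fin r → ℤ, ∀ p : Fin r → ℝ, Sim (Br r) (fun i => (q i : ℝ)) p ↔ p ∈ cone a b := by
  obtain ⟨L, hL, hL'⟩ := cone_families r
  obtain ⟨ab, hab, hqab⟩ := (hL _).1 (Real_of_grid hN hT hq)
  exact ⟨ab.1, ab.2, fun p => (hL' ab hab _ hqab p).symm⟩

end Pool.Agent.Helper76.SQG
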