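import Pool.Agent.Results.MP_309e91_co.ExplicitCones

/-!
# MP_309e91_co : the list of the cones is computed by a program

`search r` is a computable function of `r` whose values are exactly the pairs which are `Listed`.
The statement of the former hand-in ConeFamilies follows from the one of ExplicitCones.
-/

set_option autoImplicit false

namespace Pool.Agent.Helper76.SQG

open Pool.Agent.Results.MP_309e91_co.ExplicitCones

/-- The integers between `-M` and `M`. -/
def ints (M : ℕ) : Finset ℤ := (Finset.range (2 * M + 1)).image fun k : ℕ => (k : ℤ) - (M : ℤ)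

/-- The integer vectors of length `r` with entries between `-M` and `M`. -/
def box (r M : ℕ) : Finset (Fin r → ℤ) := Fintype.piFinset fun _ => ints M

theorem mem_box {r M : ℕ} {a : Fin r → ℤ} : a ∈ box r M ↔ ∀ k, |a k| ≤ M := by
  unfold box ints
  simp only [Fintype.mem_piFinset, Finset.mem_image, Finset.mem_range]
  refine forall_congr' fun k => ?_
  rw [abs_le]
  constructor
  · rintro ⟨x, hx, hxk⟩
    omega
  · intro h
    exact ⟨(a k + M).toNat, by omega, by omega⟩

/-- sizes of a tiling of a toroidal grid -/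
def GridOccurs {r : ℕ} (M : ℕ) (q : Fin r → ℕ) : Prop :=
  (∀ i j, i < j → q i < q j) ∧
    ∃ (n : Fin M) (T : Finset ((ZMod (n.val + 1) × ZMod (n.val + 1)) × Fin r)),
      Grid (n.val + 1) r q T

/-- the cone is in the cell, bounded form -/
def InCellB {r : ℕ} (B : ℤ) (a b : Fin r → ℤ) (q : Fin r → ℕ) : Prop :=
  ∀ c ∈ box r B.toNat, ∑ i, |c i| ≤ B →
    (0 < ∑ i, c i * q i →
      0 ≤ ∑ i, c i * a i ∧ 0 ≤ ∑ i, c i * b i ∧ 0 < ∑ i, c i * a i + ∑ i, c i * b i) ∧
    (∑ i, c i * q i = 0 → ∑ i, c i * a i = 0 ∧ ∑ i, c i * b i = 0)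

instance {r : ℕ} (M : ℕ) (q : Fin r → ℕ) : Decidable (GridOccurs M q) := by
  unfold GridOccurs
  infer_instance

instance {r : ℕ} (B : ℤ) (a b : Fin r → ℤ) (q : Fin r → ℕ) : Decidable (InCellB B a b q) := by
  unfold InCellB
  infer_instance

/-- the list, bounded form -/
def ListedB (r : ℕ) (a b : Fin r → ℤ) : Prop :=
  ∃ q ∈ Fintype.piFinset fun _ : Fin r => Finset.range (gridBound r + 1),
    GridOccurs (gridBound r) q ∧ InCellB (bound r) a b q

set_option synthInstance.maxSize 4000 in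
instance (r : ℕ) (a b : Fin r → ℤ) : Decidable (ListedB r a b) := by
  unfold ListedB
  infer_instance

/-- THE PROGRAM (a computable function of `r`) -/
def search (r : ℕ) : Finset ((Fin r → ℤ) × (Fin r → ℤ)) :=
  (box r (gridBound r) ×ˢ box r (gridBound r)).filter fun ab => ListedB r ab.1 ab.2

/-- the program computes the list -/
theorem mem_search {r : ℕ} {ab : (Fin r → ℤ) × (Fin r → ℤ)} :
    ab ∈ search r ↔ Listed r ab.1 ab.2 := by
  unfold search
  rw [Finset.mem_filter, Finset.mem_product, mem_box, mem_box]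
  constructor
  · rintro ⟨⟨h1, h2⟩, q, -, ⟨hq, n, T, hT⟩, hc⟩
    refine ⟨fun i => ⟨h1 i, h2 i⟩, n.val + 1, q, T, by omega, by have := n.2; omega, hq, hT, ?_⟩
    intro c hcB
    exact hc c (mem_box.2 fun k =>
      ((Pool.Agent.Helper32.SQ.le_fn c k).trans hcB).trans (Int.self_le_toNat _)) hcB
  · rintro ⟨h, N, q, T, hN, hNM, hq, hT, hc⟩
    refine ⟨⟨fun i => (h i).1, fun i => (h i).2⟩, q, ?_, ⟨hq, ?_⟩, fun c _ hcB => hc c hcB⟩
    · rw [Fintype.mem_piFinset]
      intro i
      have h1 := (hT.size i).2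
      exact Finset.mem_range.2 (by omega)
    · obtain ⟨n, rfl⟩ : ∃ n, N = n + 1 := ⟨N - 1, by omega⟩
      exact ⟨⟨n, by omega⟩, T, hT⟩

/-- the size sets, with the program -/
theorem occurs_iff_search {r : ℕ} (p : Fin r → ℝ) :
    Occurs p ↔ ∃ ab ∈ search r, InCone ab.1 ab.2 p := by
  rw [(result r).1 p]
  constructor
  · rintro ⟨a, b, h, hp⟩
    exact ⟨(a, b), mem_search.2 h, hp⟩
  · rintro ⟨ab, h, hp⟩
    exact ⟨ab.1, ab.2, mem_search.1 h, hp⟩

/-- the former hand-in ConeFamilies, word for word -/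
theorem coneFamilies (r : ℕ) : ∃ L : Finset ((Fin r → ℤ) × (Fin r → ℤ)),
    (∀ p : Fin r → ℝ, Occurs p ↔ ∃ ab ∈ L, InCone ab.1 ab.2 p) ∧
    ∀ ab ∈ L, ∀ p : Fin r → ℝ, InCone ab.1 ab.2 p →
      ∀ q : Fin r → ℝ, InCone ab.1 ab.2 q ↔ SameCell (bound r) p q := by
  classical
  obtain ⟨h1, h2⟩ := result r
  refine ⟨(search r).filter fun ab => ∀ p : Fin r → ℝ, InCone ab.1 ab.2 p →
      ∀ q : Fin r → ℝ, InCone ab.1 ab.2 q ↔ SameCell (bound r) p q, fun p => ⟨fun hp => ?_, ?_⟩,
    fun ab hab => (Finset.mem_filter.1 hab).2⟩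
  · obtain ⟨a, b, hab, hp', hq⟩ := h2 p hp
    refine ⟨(a, b), Finset.mem_filter.2 ⟨mem_search.2 hab, fun p' hpp' q => ?_⟩, hp'⟩
    have h3 := (hq p').1 hpp'
    rw [hq q]
    exact ⟨fun h c hc => (h3 c hc).symm.trans (h c hc), fun h c hc => (h3 c hc).trans (h c hc)⟩
  · rintro ⟨ab, hab, hp'⟩
    exact (occurs_iff_search p).2 ⟨ab, (Finset.mem_filter.1 hab).1, hp'⟩

end Pool.Agent.Helper76.SQG
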